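import Pool.Agent.H512.BD.Rad

set_option autoImplicit false
set_option linter.unusedSectionVars false

/-!
MP_257582_lc. Configurations with two copies all elements of which are in different small components
cancel.
-/

namespace Pool.Agent.H512.BD

open Finset
open Pool.Agent.TH669.KP (GR GR_adj sgn bit bit_pos bit_neg bit_congr toggle_zero)

/-- the number of vertices of the component of `u` -/
noncomputable def sz {V : Type} (G : SimpleGraph V) (u : V) : ℕ := Nat.card {w // G.Reachable u w}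

/-- the pairs in components with more than `m` vertices -/
def big {V : Type} (m : ℕ) (G : SimpleGraph V) : SimpleGraph V where
  Adj u v := G.Adj u v ∧ m < sz G u ∧ m < sz G v
  symm := ⟨fun _ _ h => ⟨h.1.symm, h.2.2, h.2.1⟩⟩
  loopless := ⟨fun _ h => h.1.ne rfl⟩

/-- there are at least `q` components with at most `m` vertices -/
def ManySmall {V : Type} (q m : ℕ) (G : SimpleGraph V) : Prop :=
  ∃ S : Finset V, q ≤ S.card ∧ (∀ u ∈ S, sz G u ≤ m) ∧
    ∀ u ∈ S, ∀ v ∈ S, G.Reachable u v → u = v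

variable {m : ℕ} {A : Type} [DecidableEq A] {ε : ℕ}

/-- the copies which are not contained in a class -/
noncomputable def TT (ρ : Setoid (VV m A ε)) : Finset (Fin m) := by
  classical
  exact univ.filter fun s => ¬ ∀ x y : A, ρ (.inl (s, x)) (.inl (s, y))

theorem mem_TT {ρ : Setoid (VV m A ε)} {s : Fin m} :
    s ∈ TT ρ ↔ ¬ ∀ x y : A, ρ (.inl (s, x)) (.inl (s, y)) := by
  classical
  unfold TT
  simp

/-- the copies all elements of which are in different components -/
noncomputable abbrev TC (A : Type) [DecidableEq A] {m ε : ℕ} (χ : JJ m ε → Bool) :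
    Finset (Fin m) := TT (GC A χ).reachableSetoid

variable [AddCommGroup A]

theorem third [Fintype A] (hA : 3 ≤ Fintype.card A) (x y : A) : ∃ z, z ≠ x ∧ z ≠ y := by
  by_contra hcon
  push Not at hcon
  have h1 : (univ : Finset A) ⊆ {x, y} := by
    intro z _
    rw [Finset.mem_insert, Finset.mem_singleton]
    by_cases h : z = x
    · exact Or.inl h
    · exact Or.inr (hcon z h)
  have h2 := (Finset.card_le_card h1).trans Finset.card_le_two
  rw [Finset.card_univ] at h2
  omega

/-- automorphisms preserve reachability -/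
theorem reach_aut {V : Type} {G : SimpleGraph V} (g : Equiv.Perm V)
    (hg : ∀ u v, G.Adj (g u) (g v) ↔ G.Adj u v) {u v : V} (h : G.Reachable u v) :
    G.Reachable (g u) (g v) := by
  let f : G →g G := ⟨g, fun {a b} h1 => (hg a b).2 h1⟩
  exact h.map f

/-- all or nothing -/
theorem TC_sep (c : A ≃+ A) (htr : ∀ x y : A, x ≠ 0 → y ≠ 0 → ∃ k : ℕ, c^[k] x = y)
    {χ : JJ m ε → Bool} {s : Fin m} (hs : s ∈ TC A χ) {x y : A}
    (h : (GC A χ).Reachable (.inl (s, x)) (.inl (s, y))) : x = y := by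
  by_contra hxy
  rw [mem_TT] at hs
  apply hs
  intro x' y'
  by_cases hxy' : x' = y'
  · subst hxy'
    exact SimpleGraph.Reachable.refl _
  · obtain ⟨g, hg, g1, g2, -⟩ := move (m := m) (ε := ε) htr (x := x) (y := y) (x' := x')
      (y' := y') (by simp [hxy, hxy'])
    have := reach_aut g (GC_Gr hg χ) h
    rwa [g1, g2] at this

/-- the second coordinate in the copies of the set `T` -/
def FF (T : Finset (Fin m)) : VV m A ε → Option A
  | .inl (s, x) => if s ∈ T then some x else none
  | .inr _ => none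

theorem TC_edge [Fintype A] (hA : 3 ≤ Fintype.card A) (c : A ≃+ A)
    (htr : ∀ x y : A, x ≠ 0 → y ≠ 0 → ∃ k : ℕ, c^[k] x = y)
    {χ : JJ m ε → Bool} {u v : VV m A ε} (h : (GC A χ).Adj u v) :
    FF (TC A χ) u = FF (TC A χ) v := by
  have hnt : Nontrivial A := Fintype.one_lt_card_iff_nontrivial.1 (by omega)
  have key : ∀ s x w, s ∈ TC A χ → (GC A χ).Adj (.inl (s, x)) w → FF (TC A χ) w = some x := by
    intro s x w hs hw
    obtain ⟨j, hj, hχ⟩ := (GR_adj _ _ _ _ _ _).1 hw
    have hedge : ∀ u v : VV m A ε, orb u v = some j → (GC A χ).Reachable u v := fun u v h1 =>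
      ((GR_adj _ _ _ _ _ _).2 ⟨j, h1, hχ⟩ : (GC A χ).Adj u v).reachable
    rcases w with ⟨t, y⟩ | i
    · by_cases hst : s = t
      · subst hst
        exact absurd (TC_sep c htr hs hw.reachable) (by
          rintro rfl
          exact hw.ne rfl)
      · rw [orb_diff hst] at hj
        simp only [Option.some.injEq] at hj
        subst hj
        by_cases hxy : x = y
        · subst hxy
          by_cases ht : t ∈ TC A χ
          · simp [FF, ht]
          · exfalso
            rw [mem_TT, not_not] at ht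
            obtain ⟨z, hz⟩ := exists_ne x
            have e1 := hedge (.inl (s, x)) (.inl (t, x)) (orb_diff hst _ _)
            have e2 := hedge (.inl (s, z)) (.inl (t, z)) (by rw [orb_diff hst]; simp)
            exact hz (TC_sep c htr hs (e2.trans ((ht z x).trans e1.symm)))
        · exfalso
          obtain ⟨z, hzx, hzy⟩ := third hA x y
          have e1 := hedge (.inl (s, x)) (.inl (t, y)) (orb_diff hst _ _)
          have e2 := hedge (.inl (s, z)) (.inl (t, y)) (by rw [orb_diff hst]; simp [hxy, hzy])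
          exact hzx (TC_sep c htr hs (e2.trans e1.symm))
    · exfalso
      rw [orb_lr] at hj
      simp only [Option.some.injEq] at hj
      subst hj
      obtain ⟨z, hz⟩ := exists_ne x
      exact hz (TC_sep c htr hs ((hedge (.inl (s, z)) (.inr i) rfl).trans
        (hedge (.inl (s, x)) (.inr i) rfl).symm))
  have key2 : ∀ u v, (GC A χ).Adj u v → ∀ x, FF (TC A χ) u = some x → FF (TC A χ) v = some x := by
    rintro (⟨s, y⟩ | i) v huv x hx
    · by_cases hs : s ∈ TC A χ
      · have hyx : y = x := by simpa [FF, hs] using hx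
        subst hyx
        exact key s y v hs huv
      · simp [FF, hs] at hx
    · simp [FF] at hx
  rcases hu : FF (TC A χ) u with _ | x
  · rcases hv : FF (TC A χ) v with _ | y
    · rfl
    · rw [key2 v u h.symm y hv] at hu
      cases hu
  · exact (key2 u v h x hu).symm

/-- constant along edges, hence constant on components -/
theorem const_reach {V B : Type} {G : SimpleGraph V} {F : V → B}
    (h : ∀ u v, G.Adj u v → F u = F v) {u v : V} (huv : G.Reachable u v) : F u = F v := by
  obtain ⟨p⟩ := huv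
  induction p with
  | nil => rfl
  | cons h1 _ ih => exact (h _ _ h1).trans ih

/-- the components of the elements of the copies in `TC` are small -/
theorem TC_small [Fintype A] (hA : 3 ≤ Fintype.card A) (c : A ≃+ A)
    (htr : ∀ x y : A, x ≠ 0 → y ≠ 0 → ∃ k : ℕ, c^[k] x = y)
    {χ : JJ m ε → Bool} {t : Fin m} (ht : t ∈ TC A χ) (x : A) :
    sz (GC A χ) (.inl (t, x)) ≤ m := by
  have h1 : ∀ w, (GC A χ).Reachable (.inl (t, x)) w → ∃ s, w = .inl (s, x) := by
    intro w hw
    have h2 := const_reach (fun u v h => TC_edge hA c htr h) hw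
    rcases w with ⟨s, y⟩ | i
    · by_cases hs : s ∈ TC A χ
      · simp [FF, ht, hs] at h2
        exact ⟨s, by rw [h2]⟩
      · simp [FF, ht, hs] at h2
    · simp [FF, ht] at h2
  have h2 : Function.Injective (fun w : {w // (GC A χ).Reachable (.inl (t, x)) w} =>
      (h1 w.1 w.2).choose) := by
    rintro ⟨w, hw⟩ ⟨w', hw'⟩ hww
    apply Subtype.ext
    show w = w'
    rw [(h1 w hw).choose_spec, (h1 w' hw').choose_spec]
    simp only at hww
    rw [hww]
  have h3 := Nat.card_le_card_of_injective _ h2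
  rw [Nat.card_eq_fintype_card (α := Fin m), Fintype.card_fin] at h3
  exact h3

theorem many_small [Fintype A] (hA : 3 ≤ Fintype.card A) (c : A ≃+ A)
    (htr : ∀ x y : A, x ≠ 0 → y ≠ 0 → ∃ k : ℕ, c^[k] x = y)
    {χ : JJ m ε → Bool} {t : Fin m} (ht : t ∈ TC A χ) :
    ManySmall (Fintype.card A) m (GC A χ) := by
  classical
  refine ⟨univ.image fun x : A => (.inl (t, x) : VV m A ε), ?_, ?_, ?_⟩
  · rw [Finset.card_image_of_injective, Finset.card_univ]
    intro x y hxy
    simpa using hxy
  · intro u hu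
    obtain ⟨x, -, rfl⟩ := Finset.mem_image.1 hu
    exact TC_small hA c htr ht x
  · intro u hu v hv h
    obtain ⟨x, -, rfl⟩ := Finset.mem_image.1 hu
    obtain ⟨y, -, rfl⟩ := Finset.mem_image.1 hv
    rw [TC_sep c htr ht h]

theorem GC_mono {χ χ' : JJ m ε → Bool} (h : ∀ j, χ j = true → χ' j = true) :
    GC A χ ≤ GC A χ' := by
  intro u v huv
  obtain ⟨j, hj, hχ⟩ := (GR_adj _ _ _ _ _ _).1 huv
  exact (GR_adj _ _ _ _ _ _).2 ⟨j, hj, h j hχ⟩

theorem TC_anti {χ χ' : JJ m ε → Bool} (h : ∀ j, χ j = true → χ' j = true) :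
    TC A χ' ⊆ TC A χ := by
  intro s hs
  rw [mem_TT] at hs ⊢
  intro h1
  exact hs fun x y => SimpleGraph.Reachable.mono (GC_mono h) (h1 x y)

/-- adding the pairs between corresponding elements of two copies in `TC` -/
theorem TC_add [Fintype A] (hA : 3 ≤ Fintype.card A) (c : A ≃+ A)
    (htr : ∀ x y : A, x ≠ 0 → y ≠ 0 → ∃ k : ℕ, c^[k] x = y)
    {t₁ t₂ : Fin m} (h12 : t₁ ≠ t₂) {χ χ' : JJ m ε → Bool}
    (hne : ∀ j, j ≠ .inr (.inl (pr t₁ t₂ h12, true)) → χ j = χ' j)
    (h0 : χ (.inr (.inl (pr t₁ t₂ h12, true))) = false)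
    (ht₁ : t₁ ∈ TC A χ) (ht₂ : t₂ ∈ TC A χ) : TC A χ' = TC A χ := by
  have hnt : Nontrivial A := Fintype.one_lt_card_iff_nontrivial.1 (by omega)
  refine Finset.Subset.antisymm (TC_anti fun j hj => ?_) ?_
  · rw [← hne j (fun h => by rw [h, h0] at hj; cases hj)]
    exact hj
  · intro s hs
    rw [mem_TT]
    intro hW
    obtain ⟨x, y, hxy⟩ := exists_pair_ne A
    have h1 : ∀ u v, (GC A χ').Adj u v → FF (TC A χ) u = FF (TC A χ) v := by
      intro u v huv
      obtain ⟨j, hj, hχ⟩ := (GR_adj _ _ _ _ _ _).1 huv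
      by_cases hjb : j = .inr (.inl (pr t₁ t₂ h12, true))
      · subst hjb
        rcases u with ⟨s₁, x⟩ | i <;> rcases v with ⟨s₂, y⟩ | i₂
        · by_cases hst : s₁ = s₂
          · subst hst
            by_cases hxy : x = y
            · subst hxy
              rfl
            · rw [orb_same hxy] at hj
              simp at hj
          · rw [orb_diff hst] at hj
            simp only [Option.some.injEq, Sum.inr.injEq, Sum.inl.injEq, Prod.mk.injEq,
              decide_eq_true_eq, pr_eq_iff] at hj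
            obtain ⟨h3, rfl⟩ := hj
            rcases h3 with ⟨rfl, rfl⟩ | ⟨rfl, rfl⟩
            · simp [FF, ht₁, ht₂]
            · simp [FF, ht₁, ht₂]
        · rw [orb_lr] at hj
          simp at hj
        · rw [orb_rl] at hj
          simp at hj
        · cases hj
      · exact TC_edge hA c htr ((GR_adj _ _ _ _ _ _).2 ⟨j, hj, by rw [hne j hjb]; exact hχ⟩)
    have h2 := const_reach h1 (hW x y)
    simp [FF, hs] at h2
    exact hxy h2

/-- `Q` does not see these pairs -/
theorem Q_add [Fintype A] (hA : 3 ≤ Fintype.card A) (c : A ≃+ A)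
    (htr : ∀ x y : A, x ≠ 0 → y ≠ 0 → ∃ k : ℕ, c^[k] x = y)
    {Q : SimpleGraph (VV m A ε) → Prop} (hmono : ∀ G H, G ≤ H → Q G → Q H)
    (hε : ε ≤ 1) (hbig : ∀ G : SimpleGraph (VV m A ε), (∀ u v, G.Reachable u v →
      G.edist u v + 1 ≤ ((2 * m + ε : ℕ) : ℕ∞)) → RadLE (max m 3) G → Q G →
      ManySmall (Fintype.card A) m G → Q (big m G))
    {t₁ t₂ : Fin m} (h12 : t₁ ≠ t₂) {χ χ' : JJ m ε → Bool}
    (hne : ∀ j, j ≠ .inr (.inl (pr t₁ t₂ h12, true)) → χ j = χ' j)
    (h0 : χ (.inr (.inl (pr t₁ t₂ h12, true))) = false)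
    (ht₁ : t₁ ∈ TC A χ') (ht₂ : t₂ ∈ TC A χ') : Q (GC A χ') ↔ Q (GC A χ) := by
  constructor
  · intro hQ
    refine hmono _ _ ?_ (hbig _ (fun u v huv => diam_bound c htr χ' huv)
      (GC_rad hA hε χ') hQ (many_small hA c htr ht₁))
    rintro u v ⟨huv, hu, hv⟩
    obtain ⟨j, hj, hχ⟩ := (GR_adj _ _ _ _ _ _).1 huv
    refine (GR_adj _ _ _ _ _ _).2 ⟨j, hj, ?_⟩
    by_cases hjb : j = .inr (.inl (pr t₁ t₂ h12, true))
    · exfalso
      subst hjb
      rcases u with ⟨s₁, x⟩ | i <;> rcases v with ⟨s₂, y⟩ | i₂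
      · by_cases hst : s₁ = s₂
        · subst hst
          by_cases hxy : x = y
          · subst hxy
            exact huv.ne rfl
          · rw [orb_same hxy] at hj
            simp at hj
        · rw [orb_diff hst] at hj
          simp only [Option.some.injEq, Sum.inr.injEq, Sum.inl.injEq, Prod.mk.injEq,
            decide_eq_true_eq, pr_eq_iff] at hj
          obtain ⟨h3, rfl⟩ := hj
          rcases h3 with ⟨rfl, rfl⟩ | ⟨rfl, rfl⟩
          · exact absurd (TC_small hA c htr ht₁ x) (not_le.2 hu)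
          · exact absurd (TC_small hA c htr ht₂ x) (not_le.2 hu)
      · rw [orb_lr] at hj
        simp at hj
      · rw [orb_rl] at hj
        simp at hj
      · cases hj
    · rw [hne j hjb]
      exact hχ
  · refine hmono _ _ (GC_mono fun j hj => ?_)
    rw [← hne j (fun h => by rw [h, h0] at hj; cases hj)]
    exact hj

/-- the part of the signed sum with the set `T` -/
noncomputable def XX (Q : SimpleGraph (VV m A ε) → Prop) (T : Finset (Fin m)) : ℤ :=
  ∑ χ : JJ m ε → Bool, sgn χ * (bit (Q (GC A χ)) * bit (TC A χ = T))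

theorem XX_zero [Fintype A] (hA : 3 ≤ Fintype.card A) (c : A ≃+ A)
    (htr : ∀ x y : A, x ≠ 0 → y ≠ 0 → ∃ k : ℕ, c^[k] x = y)
    {Q : SimpleGraph (VV m A ε) → Prop} (hmono : ∀ G H, G ≤ H → Q G → Q H)
    (hε : ε ≤ 1) (hbig : ∀ G : SimpleGraph (VV m A ε), (∀ u v, G.Reachable u v →
      G.edist u v + 1 ≤ ((2 * m + ε : ℕ) : ℕ∞)) → RadLE (max m 3) G → Q G →
      ManySmall (Fintype.card A) m G → Q (big m G))
    {T : Finset (Fin m)} (hT : 2 ≤ T.card) : XX Q T = 0 := by
  classical
  obtain ⟨t₁, ht₁, t₂, ht₂, h12⟩ := Finset.one_lt_card.1 (show 1 < T.card by omega)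
  have key : ∀ χ χ' : JJ m ε → Bool,
      (∀ j, j ≠ .inr (.inl (pr t₁ t₂ h12, true)) → χ j = χ' j) →
      χ (.inr (.inl (pr t₁ t₂ h12, true))) = false →
      bit (Q (GC A χ)) * bit (TC A χ = T) = bit (Q (GC A χ')) * bit (TC A χ' = T) := by
    intro χ χ' hne h0
    have hle : ∀ j, χ j = true → χ' j = true := by
      intro j hj
      rw [← hne j (fun h => by rw [h, h0] at hj; cases hj)]
      exact hj
    by_cases hT1 : TC A χ = T
    · have hT2 : TC A χ' = T := by
        rw [TC_add hA c htr h12 hne h0 (by rw [hT1]; exact ht₁) (by rw [hT1]; exact ht₂), hT1]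
      rw [bit_pos hT1, bit_pos hT2, mul_one, mul_one]
      exact bit_congr (Q_add hA c htr hmono hε hbig h12 hne h0 (by rw [hT2]; exact ht₁)
        (by rw [hT2]; exact ht₂)).symm
    · have hT2 : TC A χ' ≠ T := by
        intro hT2
        apply hT1
        rw [← hT2, TC_add hA c htr h12 hne h0 (TC_anti hle (by rw [hT2]; exact ht₁))
          (TC_anti hle (by rw [hT2]; exact ht₂))]
      rw [bit_neg hT1, bit_neg hT2, mul_zero, mul_zero]
  unfold XX
  refine toggle_zero (fun χ => bit (Q (GC A χ)) * bit (TC A χ = T))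
    (.inr (.inl (pr t₁ t₂ h12, true))) fun χ => ?_
  cases hχ : χ (.inr (.inl (pr t₁ t₂ h12, true)))
  · exact (key χ _ (fun j hj => (Function.update_of_ne hj _ _).symm) hχ).symm
  · exact key _ χ (fun j hj => Function.update_of_ne hj _ _) (by simp)

theorem sum_XX [Fintype A] (hA : 3 ≤ Fintype.card A) (c : A ≃+ A)
    (htr : ∀ x y : A, x ≠ 0 → y ≠ 0 → ∃ k : ℕ, c^[k] x = y)
    {Q : SimpleGraph (VV m A ε) → Prop} (hmono : ∀ G H, G ≤ H → Q G → Q H)
    (hε : ε ≤ 1) (hbig : ∀ G : SimpleGraph (VV m A ε), (∀ u v, G.Reachable u v →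
      G.edist u v + 1 ≤ ((2 * m + ε : ℕ) : ℕ∞)) → RadLE (max m 3) G → Q G →
      ManySmall (Fintype.card A) m G → Q (big m G)) :
    ∑ χ : JJ m ε → Bool, sgn χ * bit (Q (GC A χ)) = XX Q ∅ + ∑ z : Fin m, XX Q {z} := by
  classical
  have h1 : ∑ χ : JJ m ε → Bool, sgn χ * bit (Q (GC A χ)) = ∑ T : Finset (Fin m), XX Q T := by
    unfold XX
    rw [Finset.sum_comm]
    refine Finset.sum_congr rfl fun χ _ => ?_
    rw [Finset.sum_eq_single (TC A χ)]
    · rw [bit_pos rfl, mul_one]
    · intro T _ hT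
      rw [bit_neg (Ne.symm hT), mul_zero, mul_zero]
    · intro h
      exact absurd (Finset.mem_univ _) h
  have h2 : ∑ z : Fin m, XX Q {z} = ∑ T ∈ univ.image (fun z : Fin m => ({z} : Finset (Fin m))),
      XX Q T := by
    rw [Finset.sum_image]
    intro a _ b _ hab
    simpa using hab
  rw [h1, h2, ← Finset.sum_insert]
  · symm
    refine Finset.sum_subset (Finset.subset_univ _) fun T _ hT => ?_
    refine XX_zero hA c htr hmono hε hbig ?_
    rw [Finset.mem_insert, Finset.mem_image, not_or] at hT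
    obtain ⟨hT1, hT2⟩ := hT
    have h3 : T.card ≠ 0 := fun h => hT1 (Finset.card_eq_zero.1 h)
    have h4 : T.card ≠ 1 := fun h => by
      obtain ⟨z, hz⟩ := Finset.card_eq_one.1 h
      exact hT2 ⟨z, Finset.mem_univ _, hz.symm⟩
    omega
  · rw [Finset.mem_image]
    rintro ⟨z, -, hz⟩
    exact Finset.singleton_ne_empty z hz

end Pool.Agent.H512.BD
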