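import Pool.Agent.H512.BD.Tr

set_option autoImplicit false
set_option linter.unusedSectionVars false

/-!
MP_257582_lc. Lemmas on components, coverings by components, balls and sets of bounded weak diameter.
-/

namespace Pool.Agent.H512.BD

open Finset
open Pool.Agent.H119R2.Kp (pve_map_adj)

variable {n : ℕ}

/-- `k` components contain at least `s` vertices -/
def Comps (k s : ℕ) (G : SimpleGraph (Fin n)) : Prop :=
  ∃ D : Finset (Fin n), D.card ≤ k ∧ s ≤ Nat.card {v // ∃ w ∈ D, G.Reachable w v}

/-- `k` balls of radius `r` contain at least `s` vertices -/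
def BallC (r k s : ℕ) (G : SimpleGraph (Fin n)) : Prop :=
  ∃ D : Finset (Fin n), D.card ≤ k ∧ s ≤ Nat.card {v // ∃ w ∈ D, G.edist w v ≤ r}

/-- `k` sets of weak diameter at most `r` contain at least `s` vertices -/
def PartC (r k s : ℕ) (G : SimpleGraph (Fin n)) : Prop :=
  ∃ f : Fin n → Option (Fin k), (∀ u v, f u = f v → f u ≠ none → G.edist u v ≤ r) ∧
    s ≤ Nat.card {v // f v ≠ none}

theorem clo_reach {V : Type} {G : SimpleGraph V} {u v : V} :
    (clo G.reachableSetoid).Reachable u v ↔ G.Reachable u v := by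
  constructor
  · rintro ⟨p⟩
    induction p with
    | nil => exact SimpleGraph.Reachable.refl _
    | cons h _ ih => exact SimpleGraph.Reachable.trans h.2 ih
  · intro h
    exact h.mono (le_clo G)

theorem Comps.congr {k s : ℕ} {G H : SimpleGraph (Fin n)}
    (h : ∀ u v, G.Reachable u v ↔ H.Reachable u v) (hG : Comps k s G) : Comps k s H := by
  obtain ⟨D, h1, h2⟩ := hG
  refine ⟨D, h1, ?_⟩
  simp only [h] at h2
  exact h2

/-- `q` pairwise non-reachable vertices and `k` components with `s` vertices -/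
theorem Comps.count {k s q : ℕ} {G : SimpleGraph (Fin n)} (hG : Comps k s G)
    (S : Finset (Fin n)) (hS : q ≤ S.card) (hS' : ∀ u ∈ S, ∀ v ∈ S, G.Reachable u v → u = v) :
    s + q ≤ n + k := by
  classical
  obtain ⟨D, h1, h2⟩ := hG
  have h3 : (S.filter fun u => ∃ w ∈ D, G.Reachable w u).card ≤ D.card := by
    have h4 : ∀ u ∈ S.filter (fun u => ∃ w ∈ D, G.Reachable w u), ∃ w ∈ D, G.Reachable w u :=
      fun u hu => (Finset.mem_filter.1 hu).2
    choose! g hg hg' using h4
    refine Finset.card_le_card_of_injOn g (fun u hu => hg u hu) ?_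
    intro u hu v hv huv
    have e1 := hg' u hu
    have e2 := hg' v hv
    rw [huv] at e1
    exact hS' u (Finset.mem_filter.1 hu).1 v (Finset.mem_filter.1 hv).1 (e1.symm.trans e2)
  have h4 := Finset.card_filter_add_card_filter_not (s := S)
    (fun u => ∃ w ∈ D, G.Reachable w u)
  rw [Nat.card_eq_fintype_card, Fintype.card_subtype] at h2
  have h5 := Finset.card_filter_add_card_filter_not (s := (univ : Finset (Fin n)))
    (fun u => ∃ w ∈ D, G.Reachable w u)
  rw [Finset.card_univ, Fintype.card_fin] at h5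
  have h6 : (S.filter fun u => ¬ ∃ w ∈ D, G.Reachable w u).card ≤
      (univ.filter fun u => ¬ ∃ w ∈ D, G.Reachable w u).card :=
    Finset.card_le_card (Finset.filter_subset_filter _ (Finset.subset_univ _))
  omega

theorem sz_congr {V : Type} {G : SimpleGraph V} {u v : V} (h : G.Reachable u v) :
    sz G u = sz G v := by
  unfold sz
  exact Nat.card_congr (Equiv.subtypeEquivRight fun w =>
    ⟨fun h1 => h.symm.trans h1, fun h1 => h.trans h1⟩)

/-- large components are not changed -/
theorem big_edist {V : Type} {m : ℕ} {G : SimpleGraph V} {u v : V} (hu : m < sz G u) :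
    (big m G).edist u v ≤ G.edist u v := by
  by_cases h : G.edist u v = ⊤
  · rw [h]
    exact le_top
  · obtain ⟨p, hp⟩ := SimpleGraph.exists_walk_of_edist_ne_top h
    rw [← hp]
    clear hp h
    induction p with
    | nil => simp [SimpleGraph.edist_self]
    | @cons u w v h1 p ih =>
      have h2 : m < sz G w := by
        rw [← sz_congr h1.reachable]
        exact hu
      have h3 : (big m G).edist u w = 1 := SimpleGraph.edist_eq_one_iff_adj.2 ⟨h1, hu, h2⟩
      refine (SimpleGraph.edist_triangle (v := w)).trans ?_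
      rw [h3, SimpleGraph.Walk.length_cons, add_comm]
      push_cast
      exact add_le_add (ih h2) le_rfl

theorem big_reach {V : Type} {m : ℕ} {G : SimpleGraph V} {u v : V} (hu : m < sz G u)
    (h : G.Reachable u v) : (big m G).Reachable u v := by
  rw [← SimpleGraph.edist_ne_top_iff_reachable] at h ⊢
  exact ne_top_of_le_ne_top h (big_edist hu)

theorem big_le {V : Type} {m : ℕ} {G : SimpleGraph V} : big m G ≤ G := fun _ _ h => h.1

theorem big_diam {V : Type} {m : ℕ} {B : ℕ∞} {G : SimpleGraph V}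
    (hG : ∀ u v, G.Reachable u v → G.edist u v + 1 ≤ B) {u v : V}
    (h : (big m G).Reachable u v) : (big m G).edist u v + 1 ≤ B := by
  by_cases huv : u = v
  · subst huv
    have := hG u u (SimpleGraph.Reachable.refl _)
    rwa [SimpleGraph.edist_self] at this ⊢
  · obtain ⟨p⟩ := h
    cases p with
    | nil => exact absurd rfl huv
    | cons h1 p =>
      have h2 : G.Reachable u v := h1.1.reachable.trans (SimpleGraph.Reachable.mono big_le ⟨p⟩)
      exact (add_le_add (big_edist h1.2.1) le_rfl).trans (hG u v h2)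

theorem big_rad {V : Type} {m R : ℕ} {G : SimpleGraph V} (hG : RadLE R G) :
    RadLE R (big m G) := by
  intro u
  by_cases hu : m < sz G u
  · obtain ⟨w, hw, h1⟩ := hG u
    have hw' : m < sz G w := by
      rw [← sz_congr hw]
      exact hu
    exact ⟨w, big_reach hu hw, fun v hv =>
      (big_edist hw').trans (h1 v (SimpleGraph.Reachable.mono big_le hv))⟩
  · refine ⟨u, SimpleGraph.Reachable.refl _, fun v hv => ?_⟩
    obtain ⟨p⟩ := hv
    cases p with
    | nil => simp [SimpleGraph.edist_self]
    | cons h1 p => exact absurd h1.2.1 hu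

theorem diam_rad {V : Type} {R : ℕ} {G : SimpleGraph V}
    (h : ∀ u v, G.Reachable u v → G.edist u v ≤ R) : RadLE R G :=
  fun u => ⟨u, SimpleGraph.Reachable.refl _, fun v hv => h u v hv⟩

theorem Comps_big {m s : ℕ} {G : SimpleGraph (Fin n)} (hm : m < s) (hG : Comps 1 s G) :
    Comps 1 s (big m G) := by
  classical
  obtain ⟨D, h1, h2⟩ := hG
  refine ⟨D, h1, h2.trans ?_⟩
  rcases D.eq_empty_or_nonempty with rfl | ⟨w, hw⟩
  · simp
  · have hD : D = {w} := by
      rw [Finset.card_le_one] at h1
      ext x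
      rw [Finset.mem_singleton]
      exact ⟨fun hx => h1 x hx w hw, fun hx => hx ▸ hw⟩
    subst hD
    simp only [Finset.mem_singleton, exists_eq_left] at h2 ⊢
    have h3 : m < sz G w := lt_of_lt_of_le hm h2
    exact Nat.card_le_card_of_injective (fun v : {v // G.Reachable w v} =>
      (⟨v.1, big_reach h3 v.2⟩ : {v // (big m G).Reachable w v})) fun a b hab => by
        apply Subtype.ext
        simpa using hab

theorem first_diam {l : ℕ} {u v : Fin n} (h : (first n l).Reachable u v) :
    (first n l).edist u v ≤ 1 := by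
  by_cases huv : u = v
  · subst huv
    simp [SimpleGraph.edist_self]
  · have h1 : ∀ a b : Fin n, (first n l).Reachable a b → a ≠ b → a.1 < l := by
      rintro a b ⟨p⟩ hab
      cases p with
      | nil => exact absurd rfl hab
      | cons h1 _ => exact h1.2.1
    have h2 : (first n l).Adj u v := ⟨huv, h1 u v h huv, h1 v u h.symm (Ne.symm huv)⟩
    exact (SimpleGraph.edist_eq_one_iff_adj.2 h2).le

theorem Comps_first {k s l ε : ℕ} (hn : n = l + ε) (hε : ε ≤ 1) (hl : 1 ≤ l) (hk : 1 ≤ k)
    (hs : s ≤ n) (hs1 : k = 1 → s ≤ l) : Comps k s (first n l) := by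
  classical
  have h0 : ∀ v : Fin n, v.1 < l → (first n l).Reachable ⟨0, by omega⟩ v := by
    intro v hv
    by_cases h : (⟨0, by omega⟩ : Fin n) = v
    · rw [h]
    · have h2 : (first n l).Adj ⟨0, by omega⟩ v := ⟨h, hl, hv⟩
      exact h2.reachable
  by_cases hk1 : k = 1
  · refine ⟨{⟨0, by omega⟩}, by simpa using hk, (hs1 hk1).trans ?_⟩
    have h1 : Nat.card (Fin l) ≤
        Nat.card {v // ∃ w ∈ ({⟨0, by omega⟩} : Finset (Fin n)), (first n l).Reachable w v} := by
      refine Nat.card_le_card_of_injective (fun i : Fin l => ⟨⟨i.1, by omega⟩,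
        ⟨_, Finset.mem_singleton_self _, h0 _ i.2⟩⟩) fun a b hab => ?_
      simp only [Subtype.mk.injEq, Fin.mk.injEq] at hab
      exact Fin.ext hab
    rwa [Nat.card_eq_fintype_card (α := Fin l), Fintype.card_fin] at h1
  · refine ⟨{⟨0, by omega⟩, ⟨n - 1, by omega⟩}, Finset.card_le_two.trans (by omega),
      hs.trans ?_⟩
    have h1 : Nat.card (Fin n) ≤ Nat.card {v // ∃ w ∈
        ({⟨0, by omega⟩, ⟨n - 1, by omega⟩} : Finset (Fin n)), (first n l).Reachable w v} := by
      refine Nat.card_le_card_of_injective (fun i : Fin n => ⟨i, ?_⟩) fun a b hab => ?_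
      · by_cases hi : i.1 < l
        · exact ⟨_, by simp, h0 i hi⟩
        · refine ⟨⟨n - 1, by omega⟩, by simp, ?_⟩
          have : (⟨n - 1, by omega⟩ : Fin n) = i := Fin.ext (by
            show n - 1 = i.1
            omega)
          rw [this]
      · simp only [Subtype.mk.injEq] at hab
        exact hab
    rwa [Nat.card_eq_fintype_card (α := Fin n), Fintype.card_fin] at h1

theorem blocks_div {q l : ℕ} {u v : Fin n} (h : (blocks n q l).Reachable u v) :
    u.1 / q = v.1 / q :=
  const_reach (G := blocks n q l) (F := fun w : Fin n => w.1 / q)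
    (fun _ _ h1 => (show _ ≠ _ ∧ _ / q = _ / q ∧ _ from h1).2.1) h

theorem blocks_isol {q l : ℕ} {u v : Fin n} (h : (blocks n q l).Reachable u v)
    (hu : l * q ≤ u.1) : u = v := by
  obtain ⟨p⟩ := h
  cases p with
  | nil => rfl
  | cons h1 _ => exact absurd h1.2.2.1 (not_lt.2 hu)

theorem Comps_blocks {k s q m ε : ℕ} (hn : n = (m + 1) * q + ε) (hq : 1 ≤ q)
    (h : n + k < s + q ∨ (k = 1 ∧ q < s)) : ¬ Comps k s (blocks n q m) := by
  classical
  intro hG
  rcases h with h | ⟨rfl, h⟩
  · have h1 := hG.count (q := q) (univ.image fun i : Fin q =>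
      (⟨m * q + i.1, by rw [hn]; have := i.2; nlinarith⟩ : Fin n)) (by
        rw [Finset.card_image_of_injective, Finset.card_univ, Fintype.card_fin]
        intro a b hab
        simp only [Fin.mk.injEq] at hab
        exact Fin.ext (by omega)) (by
        intro u hu v _ huv
        obtain ⟨i, -, rfl⟩ := Finset.mem_image.1 hu
        exact blocks_isol huv (by simp))
    omega
  · obtain ⟨D, h1, h2⟩ := hG
    rcases D.eq_empty_or_nonempty with rfl | ⟨w, hw⟩
    · simp at h2
      omega
    · have hD : D = {w} := by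
        rw [Finset.card_le_one] at h1
        ext x
        rw [Finset.mem_singleton]
        exact ⟨fun hx => h1 x hx w hw, fun hx => hx ▸ hw⟩
      subst hD
      simp only [Finset.mem_singleton, exists_eq_left] at h2
      have h3 : Nat.card {v // (blocks n q m).Reachable w v} ≤ Nat.card (Fin q) := by
        refine Nat.card_le_card_of_injective (fun v => ⟨v.1.1 % q, Nat.mod_lt _ hq⟩) ?_
        intro a b hab
        simp only [Fin.mk.injEq] at hab
        have e1 := (blocks_div a.2).symm.trans (blocks_div b.2)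
        apply Subtype.ext
        apply Fin.ext
        rw [← Nat.div_add_mod a.1.1 q, ← Nat.div_add_mod b.1.1 q, e1, hab]
      rw [Nat.card_eq_fintype_card (α := Fin q), Fintype.card_fin] at h3
      omega

theorem card_sub_le {p p' : Fin n → Prop} (h : ∀ v, p v → p' v) :
    Nat.card {v // p v} ≤ Nat.card {v // p' v} :=
  Nat.card_le_card_of_injective (fun v : {v // p v} => (⟨v.1, h v.1 v.2⟩ : {v // p' v}))
    fun a b hab => by
      apply Subtype.ext
      simpa using hab

theorem card_sub_eq {p p' : Fin n → Prop} (σ : Fin n ≃ Fin n) (h : ∀ v, p v ↔ p' (σ v)) :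
    Nat.card {v // p v} = Nat.card {v // p' v} :=
  Nat.card_congr (σ.subtypeEquiv h)

theorem edist_mono {V : Type} {G H : SimpleGraph V} (h : G ≤ H) (u v : V) :
    H.edist u v ≤ G.edist u v := by
  exact hom_edist (SimpleGraph.Hom.ofLE h) u v

theorem BallC.mono {r k s : ℕ} {G H : SimpleGraph (Fin n)} (h : G ≤ H) (hG : BallC r k s G) :
    BallC r k s H := by
  obtain ⟨D, h1, h2⟩ := hG
  refine ⟨D, h1, h2.trans (card_sub_le ?_)⟩
  rintro v ⟨w, hw, h3⟩
  exact ⟨w, hw, (edist_mono h w v).trans h3⟩

theorem PartC.mono {r k s : ℕ} {G H : SimpleGraph (Fin n)} (h : G ≤ H) (hG : PartC r k s G) :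
    PartC r k s H := by
  obtain ⟨f, h1, h2⟩ := hG
  exact ⟨f, fun u v huv hu => (edist_mono h u v).trans (h1 u v huv hu), h2⟩

theorem BallC.iso {r k s : ℕ} (σ : Fin n ≃ Fin n) (G : SimpleGraph (Fin n))
    (hG : BallC r k s G) : BallC r k s (G.map σ.toEmbedding) := by
  obtain ⟨D, h1, h2⟩ := hG
  refine ⟨D.map σ.toEmbedding, by rwa [Finset.card_map], h2.trans_eq (card_sub_eq σ ?_)⟩
  intro v
  constructor
  · rintro ⟨w, hw, h3⟩
    exact ⟨σ w, Finset.mem_map_of_mem _ hw, by rw [map_edist]; exact h3⟩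
  · rintro ⟨w', hw', h3⟩
    obtain ⟨w, hw, rfl⟩ := Finset.mem_map.1 hw'
    refine ⟨w, hw, ?_⟩
    rw [← map_edist σ]
    exact h3

theorem PartC.iso {r k s : ℕ} (σ : Fin n ≃ Fin n) (G : SimpleGraph (Fin n))
    (hG : PartC r k s G) : PartC r k s (G.map σ.toEmbedding) := by
  obtain ⟨f, h1, h2⟩ := hG
  refine ⟨fun v => f (σ.symm v), ?_, h2.trans_eq (card_sub_eq σ ?_)⟩
  · intro u v huv hu
    obtain ⟨u, rfl⟩ := σ.surjective u
    obtain ⟨v, rfl⟩ := σ.surjective v
    simp only [Equiv.symm_apply_apply] at huv hu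
    rw [map_edist]
    exact h1 u v huv hu
  · intro v
    simp only [Equiv.symm_apply_apply]

theorem BallC.comps {r k s : ℕ} {G : SimpleGraph (Fin n)} (hG : BallC r k s G) :
    Comps k s G := by
  obtain ⟨D, h1, h2⟩ := hG
  refine ⟨D, h1, h2.trans (card_sub_le ?_)⟩
  rintro v ⟨w, hw, h3⟩
  exact ⟨w, hw, SimpleGraph.edist_ne_top_iff_reachable.1
    (ne_top_of_le_ne_top (ENat.natCast_ne_top r) h3)⟩

theorem PartC.comps {r k s : ℕ} {G : SimpleGraph (Fin n)} (hG : PartC r k s G) :
    Comps k s G := by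
  classical
  obtain ⟨f, h1, h2⟩ := hG
  rcases isEmpty_or_nonempty (Fin n) with hem | hne
  · refine ⟨∅, by simp, h2.trans (card_sub_le fun v => ?_)⟩
    exact (hem.false v).elim
  have h3 : ∀ i : Fin k, (∃ v, f v = some i) → ∃ v, f v = some i := fun _ h => h
  choose! g hg using h3
  refine ⟨(univ.filter fun i : Fin k => ∃ v, f v = some i).image g, ?_,
    h2.trans (card_sub_le ?_)⟩
  · refine Finset.card_image_le.trans ((Finset.card_filter_le _ _).trans ?_)
    rw [Finset.card_univ, Fintype.card_fin]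
  · intro v hv
    obtain ⟨i, hi⟩ := Option.ne_none_iff_exists'.1 hv
    refine ⟨g i, Finset.mem_image_of_mem _ (Finset.mem_filter.2 ⟨Finset.mem_univ _, v, hi⟩), ?_⟩
    have h4 := hg i ⟨v, hi⟩
    have h5 := h1 (g i) v (by rw [h4, hi]) (by rw [h4]; simp)
    exact SimpleGraph.edist_ne_top_iff_reachable.1
      (ne_top_of_le_ne_top (ENat.natCast_ne_top r) h5)

theorem Comps.ball {r k s : ℕ} {G : SimpleGraph (Fin n)}
    (hd : RadLE r G) (hG : Comps k s G) : BallC r k s G := by
  classical
  obtain ⟨D, h1, h2⟩ := hG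
  choose c hc hc' using hd
  refine ⟨D.image c, Finset.card_image_le.trans h1, h2.trans (card_sub_le ?_)⟩
  rintro v ⟨w, hw, h3⟩
  exact ⟨c w, Finset.mem_image_of_mem _ hw, hc' w v ((hc w).symm.trans h3)⟩

theorem Comps.part {r k s : ℕ} {G : SimpleGraph (Fin n)}
    (hd : ∀ u v, G.Reachable u v → G.edist u v ≤ r) (hG : Comps k s G) : PartC r k s G := by
  classical
  obtain ⟨D, h1, h2⟩ := hG
  have hι : Nonempty ({w // w ∈ D} ↪ Fin k) := by
    rw [Function.Embedding.nonempty_iff_card_le, Fintype.card_coe, Fintype.card_fin]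
    exact h1
  obtain ⟨ι⟩ := hι
  have h3 : ∀ v, (∃ w ∈ D, G.Reachable w v) → ∃ w : {w // w ∈ D}, G.Reachable w.1 v := by
    rintro v ⟨w, hw, h4⟩
    exact ⟨⟨w, hw⟩, h4⟩
  refine ⟨fun v => if h : ∃ w ∈ D, G.Reachable w v then some (ι (h3 v h).choose) else none,
    ?_, h2.trans (card_sub_le ?_)⟩
  · intro u v huv hu
    by_cases h4 : ∃ w ∈ D, G.Reachable w u
    · by_cases h5 : ∃ w ∈ D, G.Reachable w v
      · simp only [dif_pos h4, dif_pos h5, Option.some.injEq] at huv
        have h6 := ι.injective huv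
        have e1 := (h3 u h4).choose_spec
        have e2 := (h3 v h5).choose_spec
        rw [h6] at e1
        exact hd u v (e1.symm.trans e2)
      · simp only [dif_pos h4, dif_neg h5] at huv
        cases huv
    · simp only [dif_neg h4] at hu
      exact absurd rfl hu
  · intro v hv
    simp only [dif_pos hv]
    simp

end Pool.Agent.H512.BD
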