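import Pool.Agent.H512.BD.Model

set_option autoImplicit false
set_option linter.unusedSectionVars false

/-!
MP_257582_lc. The components of an invariant graph have bounded diameter.
-/

namespace Pool.Agent.H512.BD

open Finset
open Pool.Agent.TH669.KP (GR GR_adj)

/-- a geodesic visits every part at most twice -/
theorem geod {V : Type} {G : SimpleGraph V} {m ε : ℕ} (part : V → Fin m ⊕ Fin ε)
    (h2 : ∀ s u v u' v', part u = .inl s → part v = .inl s → part u' = .inl s →
      part v' = .inl s → u ≠ v → u' ≠ v' → G.edist u v = G.edist u' v')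
    (h1 : ∀ i u v, part u = .inr i → part v = .inr i → u = v) {u v : V}
    (h : G.Reachable u v) : G.edist u v + 1 ≤ ((2 * m + ε : ℕ) : ℕ∞) := by
  classical
  obtain ⟨p, hp⟩ := SimpleGraph.exists_walk_of_edist_ne_top
    (SimpleGraph.edist_ne_top_iff_reachable.2 h)
  set w : ℕ → V := fun i => p.getVert i with hw
  have up : ∀ i k, i + k ≤ p.length → G.edist (w i) (w (i + k)) ≤ (k : ℕ∞) := by
    intro i k
    induction k with
    | zero =>
      intro _
      simp [SimpleGraph.edist_self]
    | succ k ih =>
      intro hk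
      have ha : G.Adj (w (i + k)) (w (i + (k + 1))) := p.adj_getVert_succ (by omega)
      have h3 : G.edist (w (i + k)) (w (i + (k + 1))) = 1 :=
        SimpleGraph.edist_eq_one_iff_adj.2 ha
      refine (SimpleGraph.edist_triangle (v := w (i + k))).trans ?_
      rw [h3]
      push_cast
      exact add_le_add (ih (by omega)) le_rfl
  have eq : ∀ i j, i ≤ j → j ≤ p.length → G.edist (w i) (w j) = ((j - i : ℕ) : ℕ∞) := by
    intro i j hij hj
    have e1 := up i (j - i) (by omega)
    rw [show i + (j - i) = j by omega] at e1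
    refine le_antisymm e1 ?_
    have e2 := up 0 i (by omega)
    have e3 := up j (p.length - j) (by omega)
    rw [show j + (p.length - j) = p.length by omega] at e3
    rw [zero_add] at e2
    have e4 : G.edist (w 0) (w p.length) = (p.length : ℕ∞) := by
      simp only [hw, SimpleGraph.Walk.getVert_zero, SimpleGraph.Walk.getVert_length]
      exact hp.symm
    have e5 : (p.length : ℕ∞) ≤ (i : ℕ∞) + G.edist (w i) (w j) + ((p.length - j : ℕ) : ℕ∞) := by
      rw [← e4]
      refine (SimpleGraph.edist_triangle (v := w j)).trans ?_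
      refine add_le_add ((SimpleGraph.edist_triangle (v := w i)).trans (add_le_add e2 le_rfl)) e3
    have e6 : G.edist (w i) (w j) ≠ ⊤ := ne_top_of_le_ne_top (ENat.natCast_ne_top _) e1
    obtain ⟨d, hd⟩ := ENat.ne_top_iff_exists.1 e6
    rw [← hd] at e5 ⊢
    have e7 : p.length ≤ i + d + (p.length - j) := by exact_mod_cast e5
    have e8 : j - i ≤ d := by omega
    exact_mod_cast e8
  have hcount : p.length + 1 ≤ 2 * m + ε := by
    have c1 : (univ : Finset (Fin (p.length + 1))).card =
        ∑ b : Fin m ⊕ Fin ε, (univ.filter fun i : Fin (p.length + 1) => part (w i) = b).card :=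
      Finset.card_eq_sum_card_fiberwise (fun _ _ => Finset.mem_coe.2 (Finset.mem_univ _))
    rw [Finset.card_univ, Fintype.card_fin, Fintype.sum_sum_type] at c1
    have c2 : ∀ s : Fin m,
        (univ.filter fun i : Fin (p.length + 1) => part (w i) = .inl s).card ≤ 2 := by
      intro s
      by_contra hcon
      push Not at hcon
      obtain ⟨a, b, c, ha, hb, hc, hab, hac, hbc⟩ := Finset.two_lt_card_iff.1 hcon
      rw [Finset.mem_filter] at ha hb hc
      have key : ∀ i j k l : Fin (p.length + 1), part (w i) = .inl s → part (w j) = .inl s →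
          part (w k) = .inl s → part (w l) = .inl s → i.1 < j.1 → k.1 < l.1 →
          j.1 - i.1 = l.1 - k.1 := by
        intro i j k l hi hj hk hl hij hkl
        have f1 := eq i j hij.le (by omega)
        have f2 := eq k l hkl.le (by omega)
        have f3 : w i ≠ w j := by
          intro h3
          rw [h3, SimpleGraph.edist_self] at f1
          have : j.1 - i.1 = 0 := by exact_mod_cast f1.symm
          omega
        have f4 : w k ≠ w l := by
          intro h3
          rw [h3, SimpleGraph.edist_self] at f2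
          have : l.1 - k.1 = 0 := by exact_mod_cast f2.symm
          omega
        have f5 := h2 s _ _ _ _ hi hj hk hl f3 f4
        rw [f1, f2] at f5
        exact_mod_cast f5
      have n1 : a.1 ≠ b.1 := fun h3 => hab (Fin.ext h3)
      have n2 : a.1 ≠ c.1 := fun h3 => hac (Fin.ext h3)
      have n3 : b.1 ≠ c.1 := fun h3 => hbc (Fin.ext h3)
      have main : ∀ x y z : Fin (p.length + 1), part (w x) = .inl s → part (w y) = .inl s →
          part (w z) = .inl s → x.1 < y.1 → y.1 < z.1 → False := by
        intro x y z hx hy hz hxy hyz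
        have := key x y x z hx hy hx hz hxy (hxy.trans hyz)
        omega
      rcases lt_or_gt_of_ne n1 with l1 | l1 <;> rcases lt_or_gt_of_ne n2 with l2 | l2 <;>
        rcases lt_or_gt_of_ne n3 with l3 | l3
      · exact main a b c ha.2 hb.2 hc.2 l1 l3
      · exact main a c b ha.2 hc.2 hb.2 l2 l3
      · omega
      · exact main c a b hc.2 ha.2 hb.2 l2 l1
      · exact main b a c hb.2 ha.2 hc.2 l1 l2
      · omega
      · exact main b c a hb.2 hc.2 ha.2 l3 l2
      · exact main c b a hc.2 hb.2 ha.2 l3 l1
    have c3 : ∀ i : Fin ε,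
        (univ.filter fun j : Fin (p.length + 1) => part (w j) = .inr i).card ≤ 1 := by
      intro i
      rw [Finset.card_le_one]
      intro a ha b hb
      rw [Finset.mem_filter] at ha hb
      have h3 := h1 i _ _ ha.2 hb.2
      by_contra hab
      have hab' : a.1 ≠ b.1 := fun h4 => hab (Fin.ext h4)
      rcases lt_or_gt_of_ne hab' with l | l
      · have f1 := eq a b l.le (by omega)
        rw [h3, SimpleGraph.edist_self] at f1
        have : b.1 - a.1 = 0 := by exact_mod_cast f1.symm
        omega
      · have f1 := eq b a l.le (by omega)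
        rw [h3, SimpleGraph.edist_self] at f1
        have : a.1 - b.1 = 0 := by exact_mod_cast f1.symm
        omega
    have c4 := Finset.sum_le_sum fun s (_ : s ∈ (univ : Finset (Fin m))) => c2 s
    have c5 := Finset.sum_le_sum fun s (_ : s ∈ (univ : Finset (Fin ε))) => c3 s
    simp only [Finset.sum_const, Finset.card_univ, Fintype.card_fin, smul_eq_mul] at c4 c5
    omega
  rw [← hp]
  exact_mod_cast hcount

variable {m : ℕ} {A : Type} [DecidableEq A] [AddCommGroup A] {ε : ℕ}

theorem GC_Gr {c : A ≃+ A} {g : Equiv.Perm (VV m A ε)} (hg : g ∈ Gr (m := m) (ε := ε) c)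
    (χ : JJ m ε → Bool) (u v : VV m A ε) : (GC A χ).Adj (g u) (g v) ↔ (GC A χ).Adj u v := by
  rw [GR_adj, GR_adj, orb_Gr hg]

/-- automorphisms preserve distances -/
theorem edist_aut {V : Type} {G : SimpleGraph V} (g : Equiv.Perm V)
    (hg : ∀ u v, G.Adj (g u) (g v) ↔ G.Adj u v) (u v : V) :
    G.edist (g u) (g v) = G.edist u v := by
  have key : ∀ g : Equiv.Perm V, (∀ u v, G.Adj (g u) (g v) ↔ G.Adj u v) → ∀ u v,
      G.edist (g u) (g v) ≤ G.edist u v := by
    intro g hg u v
    by_cases h : G.edist u v = ⊤
    · rw [h]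
      exact le_top
    · obtain ⟨p, hp⟩ := SimpleGraph.exists_walk_of_edist_ne_top h
      let f : G →g G := ⟨g, fun {a b} h1 => (hg a b).2 h1⟩
      rw [← hp]
      have := SimpleGraph.Walk.edist_le (p.map f)
      rw [SimpleGraph.Walk.length_map] at this
      exact this
  refine le_antisymm (key g hg u v) ?_
  have hg' : ∀ u v, G.Adj (g.symm u) (g.symm v) ↔ G.Adj u v := by
    intro u v
    rw [← hg, g.apply_symm_apply, g.apply_symm_apply]
  have := key g.symm hg' (g u) (g v)
  rwa [g.symm_apply_apply, g.symm_apply_apply] at this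

theorem diam_bound (c : A ≃+ A) (htr : ∀ x y : A, x ≠ 0 → y ≠ 0 → ∃ k : ℕ, c^[k] x = y)
    (χ : JJ m ε → Bool) {u v : VV m A ε} (h : (GC A χ).Reachable u v) :
    (GC A χ).edist u v + 1 ≤ ((2 * m + ε : ℕ) : ℕ∞) := by
  refine geod (fun v => Sum.map Prod.fst id v) ?_ ?_ h
  · rintro s (⟨s₁, x⟩ | i) (⟨s₂, y⟩ | i) (⟨s₃, x'⟩ | i) (⟨s₄, y'⟩ | i) h1 h2 h3 h4 h5 h6
    all_goals try cases h1
    all_goals try cases h2
    all_goals try cases h3
    all_goals try cases h4
    have hxy : x ≠ y := fun h => h5 (by rw [h])
    have hxy' : x' ≠ y' := fun h => h6 (by rw [h])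
    obtain ⟨g, hg, g1, g2, -⟩ := move (m := m) (ε := ε) htr (x := x) (y := y) (x' := x')
      (y' := y') (by simp [hxy, hxy'])
    rw [← g1, ← g2, edist_aut g (GC_Gr hg χ)]
  · rintro i (⟨s₁, x⟩ | i₁) (⟨s₂, y⟩ | i₂) h1 h2
    all_goals try cases h1
    all_goals try cases h2
    rfl

end Pool.Agent.H512.BD
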