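import Pool.Graph.R_seed8.TH669.KP.Orb

set_option autoImplicit false

/-!
MP_257582_lc. Two weighted families of elements of a finite ordered set with the same sums below every
element have the same sums against every function.
-/

namespace Pool.Agent.H512.BD

open Finset
open Pool.Agent.TH669.KP (GR GR_adj sgn bit bit_pos bit_neg bit_congr toggle_zero)

theorem mob {L : Type} [PartialOrder L] [Finite L] {X Y : Type} [Fintype X] [Fintype Y]
    (a : X → ℤ) (f : X → L) (b : Y → ℤ) (g : Y → L)
    (h : ∀ ρ, ∑ x, a x * bit (f x ≤ ρ) = ∑ y, b y * bit (g y ≤ ρ)) (Φ : L → ℤ) :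
    ∑ x, a x * Φ (f x) = ∑ y, b y * Φ (g y) := by
  classical
  have : Fintype L := Fintype.ofFinite L
  have key : ∀ {Z : Type} [Fintype Z] (c : Z → ℤ) (k : Z → L) (Ψ : L → ℤ),
      ∑ z, c z * Ψ (k z) = ∑ ρ, (∑ z, c z * bit (k z = ρ)) * Ψ ρ := by
    intro Z _ c k Ψ
    simp only [Finset.sum_mul]
    rw [Finset.sum_comm]
    refine Finset.sum_congr rfl fun z _ => ?_
    rw [Finset.sum_eq_single (k z)]
    · rw [bit_pos rfl, mul_one]
    · intro ρ _ hρ
      rw [bit_neg (Ne.symm hρ), mul_zero, zero_mul]
    · intro h1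
      exact absurd (Finset.mem_univ _) h1
  have hw : ∀ ρ, ∑ x, a x * bit (f x = ρ) = ∑ y, b y * bit (g y = ρ) := by
    intro ρ
    induction ρ using WellFoundedLT.induction with
    | ind ρ ih =>
      have h1 := h ρ
      rw [key a f (fun π => bit (π ≤ ρ)), key b g (fun π => bit (π ≤ ρ))] at h1
      rw [← Finset.add_sum_erase univ _ (Finset.mem_univ ρ),
        ← Finset.add_sum_erase univ (fun π => (∑ y, b y * bit (g y = π)) * bit (π ≤ ρ))
          (Finset.mem_univ ρ)] at h1
      have h2 : ∀ π ∈ univ.erase ρ, (∑ x, a x * bit (f x = π)) * bit (π ≤ ρ) =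
          (∑ y, b y * bit (g y = π)) * bit (π ≤ ρ) := by
        intro π hπ
        by_cases h3 : π ≤ ρ
        · rw [ih π (lt_of_le_of_ne h3 (Finset.ne_of_mem_erase hπ))]
        · rw [bit_neg h3, mul_zero, mul_zero]
      rw [Finset.sum_congr rfl h2] at h1
      have h3 := add_right_cancel h1
      rwa [bit_pos (le_refl ρ), mul_one, mul_one] at h3
  rw [key a f Φ, key b g Φ]
  exact Finset.sum_congr rfl fun ρ _ => by rw [hw ρ]

instance instFinSetoid {V : Type} [Finite V] : Finite (Setoid V) :=
  Finite.of_injective (fun s : Setoid V => (fun u v : V => s u v)) fun s t h => by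
    ext u v
    exact iff_of_eq (congrFun (congrFun h u) v)

/-- the partition into components is finer than `ρ` if and only if adjacent vertices are related -/
theorem reach_le {V : Type} {G : SimpleGraph V} {ρ : Setoid V} :
    G.reachableSetoid ≤ ρ ↔ ∀ u v, G.Adj u v → ρ u v := by
  constructor
  · intro h u v huv
    exact h (show G.Reachable u v from huv.reachable)
  · rintro h u v ⟨p⟩
    induction p with
    | nil => exact ρ.refl _
    | cons h1 _ ih => exact ρ.trans (h _ _ h1) ih

/-- the signed sum over the configurations below a partition -/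
theorem zetaL {V J : Type} [Fintype J] [DecidableEq J] (orb : V → V → Option J)
    (hs : ∀ u v, orb u v = orb v u) (hd : ∀ u, orb u u = none) (ρ : Setoid V) :
    ∑ χ : J → Bool, sgn χ * bit ((GR orb hs hd χ).reachableSetoid ≤ ρ) =
      bit (∀ j, ∃ u v, orb u v = some j ∧ ¬ ρ u v) := by
  classical
  by_cases h : ∀ j, ∃ u v, orb u v = some j ∧ ¬ ρ u v
  · rw [bit_pos h, Finset.sum_eq_single (fun _ => false)]
    · rw [bit_pos, mul_one]
      · unfold sgn
        simp
      · rw [reach_le]
        intro u v huv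
        rw [GR_adj] at huv
        obtain ⟨j, _, h1⟩ := huv
        cases h1
    · intro χ _ hχ
      obtain ⟨j, hj⟩ : ∃ j, χ j = true := by
        by_contra hcon
        push Not at hcon
        exact hχ (funext fun j => by simpa using hcon j)
      rw [bit_neg, mul_zero]
      rw [reach_le]
      intro h1
      obtain ⟨u, v, h2, h3⟩ := h j
      exact h3 (h1 u v ((GR_adj _ _ _ _ _ _).2 ⟨j, h2, hj⟩))
    · intro h1
      exact absurd (Finset.mem_univ _) h1
  · rw [bit_neg h]
    push Not at h
    obtain ⟨j, hj⟩ := h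
    refine toggle_zero (fun χ => bit ((GR orb hs hd χ).reachableSetoid ≤ ρ)) j fun χ => ?_
    apply bit_congr
    rw [reach_le, reach_le]
    have h1 : ∀ χ χ' : J → Bool, (∀ i, i ≠ j → χ i = χ' i) →
        (∀ u v, (GR orb hs hd χ).Adj u v → ρ u v) →
        ∀ u v, (GR orb hs hd χ').Adj u v → ρ u v := by
      intro χ χ' hχ h2 u v huv
      rw [GR_adj] at huv
      obtain ⟨i, hi, h3⟩ := huv
      by_cases hij : i = j
      · subst hij
        exact hj u v hi
      · exact h2 u v ((GR_adj _ _ _ _ _ _).2 ⟨i, hi, by rw [hχ i hij]; exact h3⟩)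
    exact ⟨h1 _ _ fun i hi => Function.update_of_ne hi _ _,
      h1 _ _ fun i hi => (Function.update_of_ne hi _ _).symm⟩

end Pool.Agent.H512.BD
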