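import Pool.Agent.H512.BD.Mob
import Pool.Graph.R_pool_sql_team_seeded_9f66d723.W99.Tw.Model

set_option autoImplicit false
set_option linter.unusedSectionVars false

/-!
MP_257582_lc. The vertex set consists of `m` copies of an abelian group `A` and of at most one further
vertex. The group is generated by the simultaneous translations and by one automorphism.
-/

namespace Pool.Agent.H512.BD

open Finset
open Pool.Agent.H119R2.Kp (GP PV)
open Pool.Agent.TH669.KP (GR GR_adj rel_orb sgn bit bit_pos bit_neg bit_congr)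

/-- the vertices -/
abbrev VV (m : ℕ) (A : Type) (ε : ℕ) : Type := (Fin m × A) ⊕ Fin ε

/-- the unordered pairs of copies -/
abbrev EE (m : ℕ) : Type := {e : Sym2 (Fin m) // ¬ e.IsDiag}

/-- the orbits of pairs: inside a copy; between two copies, equal or different second coordinates;
between a copy and the further vertex -/
abbrev JJ (m ε : ℕ) : Type := Fin m ⊕ ((EE m × Bool) ⊕ (Fin m × Fin ε))

variable {m : ℕ} {A : Type} [DecidableEq A] {ε : ℕ}

/-- the pair of two different copies -/
def pr (s t : Fin m) (h : s ≠ t) : EE m := ⟨s(s, t), by simpa using h⟩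

theorem pr_swap (s t : Fin m) (h : s ≠ t) : pr s t h = pr t s h.symm := by
  unfold pr
  simp only [Subtype.mk.injEq]
  exact Sym2.eq_swap

theorem pr_eq_iff {s t s' t' : Fin m} {h : s ≠ t} {h' : s' ≠ t'} :
    pr s t h = pr s' t' h' ↔ (s = s' ∧ t = t') ∨ (s = t' ∧ t = s') := by
  unfold pr
  simp only [Subtype.mk.injEq, Sym2.eq_iff]

theorem pr_exists (e : EE m) : ∃ s t, ∃ h : s ≠ t, e = pr s t h := by
  obtain ⟨e, he⟩ := e
  induction e using Sym2.ind with
  | _ s t => exact ⟨s, t, by simpa using he, rfl⟩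

/-- the orbit of a pair -/
def orb : VV m A ε → VV m A ε → Option (JJ m ε)
  | .inl (s, x), .inl (t, y) =>
      if h : s = t then (if x = y then none else some (.inl s))
      else some (.inr (.inl (pr s t h, decide (x = y))))
  | .inl (s, _), .inr i => some (.inr (.inr (s, i)))
  | .inr i, .inl (s, _) => some (.inr (.inr (s, i)))
  | .inr _, .inr _ => none

theorem orb_self (v : VV m A ε) : orb v v = none := by
  rcases v with ⟨s, x⟩ | i
  · simp [orb]
  · rfl

theorem orb_same {s : Fin m} {x y : A} (h : x ≠ y) :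
    orb (ε := ε) (.inl (s, x)) (.inl (s, y)) = some (.inl s) := by
  simp [orb, h]

theorem orb_diff {s t : Fin m} (h : s ≠ t) (x y : A) :
    orb (ε := ε) (.inl (s, x)) (.inl (t, y)) = some (.inr (.inl (pr s t h, decide (x = y)))) := by
  simp [orb, h]

theorem orb_lr (s : Fin m) (x : A) (i : Fin ε) :
    orb (.inl (s, x)) (.inr i) = some (.inr (.inr (s, i))) := rfl

theorem orb_rl (s : Fin m) (x : A) (i : Fin ε) :
    orb (.inr i) (.inl (s, x)) = some (.inr (.inr (s, i))) := rfl

theorem orb_symm (u v : VV m A ε) : orb u v = orb v u := by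
  rcases u with ⟨s, x⟩ | i <;> rcases v with ⟨t, y⟩ | j
  · by_cases h : s = t
    · subst h
      by_cases hxy : x = y
      · subst hxy; rfl
      · rw [orb_same hxy, orb_same (Ne.symm hxy)]
    · rw [orb_diff h, orb_diff (Ne.symm h), pr_swap]
      simp only [eq_comm]
  · rfl
  · rfl
  · rfl

theorem orb_ne_none (hε : ε ≤ 1) (u v : VV m A ε) (h : u ≠ v) : orb u v ≠ none := by
  rcases u with ⟨s, x⟩ | i <;> rcases v with ⟨t, y⟩ | j
  · by_cases h1 : s = t
    · subst h1
      have hxy : x ≠ y := fun h2 => h (by rw [h2])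
      rw [orb_same hxy]
      simp
    · rw [orb_diff h1]
      simp
  · rw [orb_lr]
    simp
  · rw [orb_rl]
    simp
  · exfalso
    apply h
    congr 1
    exact Fin.ext (by omega)

variable [AddCommGroup A]

theorem orb_exists [Nontrivial A] (j : JJ m ε) : ∃ u v, orb (A := A) u v = some j := by
  obtain ⟨a, ha⟩ := exists_ne (0 : A)
  rcases j with s | ⟨e, b⟩ | ⟨s, i⟩
  · exact ⟨_, _, orb_same (s := s) ha⟩
  · obtain ⟨s, t, h, rfl⟩ := pr_exists e
    cases b
    · refine ⟨.inl (s, a), .inl (t, 0), ?_⟩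
      rw [orb_diff h, decide_eq_false ha]
    · refine ⟨.inl (s, 0), .inl (t, 0), ?_⟩
      rw [orb_diff h, decide_eq_true rfl]
  · exact ⟨_, _, orb_lr s 0 i⟩

/-- simultaneous translation -/
def tr (a : A) : Equiv.Perm (VV m A ε) :=
  Equiv.sumCongr (Equiv.prodCongr (Equiv.refl _) (Equiv.addRight a)) (Equiv.refl _)

/-- the automorphism -/
def cA (c : A ≃+ A) : Equiv.Perm (VV m A ε) :=
  Equiv.sumCongr (Equiv.prodCongr (Equiv.refl _) c.toEquiv) (Equiv.refl _)

theorem tr_inl (a : A) (s : Fin m) (x : A) :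
    tr (ε := ε) a (.inl (s, x)) = .inl (s, x + a) := rfl

theorem tr_inr (a : A) (i : Fin ε) : tr (m := m) a (.inr i) = .inr i := rfl

theorem cA_inl (c : A ≃+ A) (s : Fin m) (x : A) :
    cA (ε := ε) c (.inl (s, x)) = .inl (s, c x) := rfl

theorem cA_inr (c : A ≃+ A) (i : Fin ε) : cA (m := m) c (.inr i) = .inr i := rfl

theorem cA_pow_inl (c : A ≃+ A) (k : ℕ) (s : Fin m) (x : A) :
    (cA (ε := ε) c ^ k) (.inl (s, x)) = .inl (s, c^[k] x) := by
  induction k with
  | zero => rfl
  | succ k ih =>
    rw [pow_succ', Equiv.Perm.mul_apply, ih, cA_inl, Function.iterate_succ_apply']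

theorem cA_pow_inr (c : A ≃+ A) (k : ℕ) (i : Fin ε) : (cA (m := m) c ^ k) (.inr i) = .inr i := by
  induction k with
  | zero => rfl
  | succ k ih => rw [pow_succ', Equiv.Perm.mul_apply, ih, cA_inr]

theorem tr_comm (a b : A) : tr (m := m) (ε := ε) a * tr b = tr b * tr a := by
  ext v : 1
  rcases v with ⟨s, x⟩ | i
  · simp only [Equiv.Perm.mul_apply, tr_inl]
    rw [add_right_comm]
  · rfl

theorem tr_pow_inl (a : A) (k : ℕ) (s : Fin m) (x : A) :
    (tr (ε := ε) a ^ k) (.inl (s, x)) = .inl (s, x + k • a) := by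
  induction k with
  | zero => simp
  | succ k ih =>
    rw [pow_succ', Equiv.Perm.mul_apply, ih, tr_inl, succ_nsmul, add_assoc]

theorem tr_pow_inr (a : A) (k : ℕ) (i : Fin ε) : (tr (m := m) a ^ k) (.inr i) = .inr i := by
  induction k with
  | zero => rfl
  | succ k ih => rw [pow_succ', Equiv.Perm.mul_apply, ih, tr_inr]

theorem cA_conj (c : A ≃+ A) (a : A) :
    (cA (m := m) (ε := ε) c)⁻¹ * tr a * cA c = tr (c.symm a) := by
  rw [mul_assoc, inv_mul_eq_iff_eq_mul]
  ext v : 1
  rcases v with ⟨s, x⟩ | i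
  · simp only [Equiv.Perm.mul_apply, tr_inl, cA_inl, map_add, AddEquiv.apply_symm_apply]
  · rfl

theorem orb_tr (a : A) (u v : VV m A ε) : orb (tr a u) (tr a v) = orb u v := by
  rcases u with ⟨s, x⟩ | i <;> rcases v with ⟨t, y⟩ | j
  · rw [tr_inl, tr_inl]
    by_cases h : s = t
    · subst h
      by_cases hxy : x = y
      · subst hxy
        rw [orb_self, orb_self]
      · rw [orb_same hxy, orb_same fun h => hxy (add_right_cancel h)]
    · rw [orb_diff h, orb_diff h]
      simp only [add_left_inj]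
  · rfl
  · rfl
  · rfl

theorem orb_cA (c : A ≃+ A) (u v : VV m A ε) : orb (cA c u) (cA c v) = orb u v := by
  rcases u with ⟨s, x⟩ | i <;> rcases v with ⟨t, y⟩ | j
  · rw [cA_inl, cA_inl]
    by_cases h : s = t
    · subst h
      by_cases hxy : x = y
      · subst hxy
        rw [orb_self, orb_self]
      · rw [orb_same hxy, orb_same fun h => hxy (c.injective h)]
    · rw [orb_diff h, orb_diff h]
      simp only [EmbeddingLike.apply_eq_iff_eq]
  · rfl
  · rfl
  · rfl

/-- the group -/
abbrev Gr (c : A ≃+ A) : Subgroup (Equiv.Perm (VV m A ε)) :=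
  Subgroup.closure (insert (cA c) (Set.range tr))

theorem tr_mem (c : A ≃+ A) (a : A) : tr a ∈ Gr (m := m) (ε := ε) c :=
  Subgroup.subset_closure (Set.mem_insert_of_mem _ (Set.mem_range_self a))

theorem cA_mem (c : A ≃+ A) : cA c ∈ Gr (m := m) (ε := ε) c :=
  Subgroup.subset_closure (Set.mem_insert _ _)

theorem orb_Gr {c : A ≃+ A} {g : Equiv.Perm (VV m A ε)} (hg : g ∈ Gr (m := m) (ε := ε) c)
    (u v : VV m A ε) : orb (g u) (g v) = orb u v := by
  induction hg using Subgroup.closure_induction generalizing u v with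
  | mem g hg =>
    rcases hg with rfl | ⟨a, rfl⟩
    · exact orb_cA c u v
    · exact orb_tr a u v
  | one => rfl
  | mul g h _ _ ihg ihh => rw [Equiv.Perm.mul_apply, Equiv.Perm.mul_apply, ihg, ihh]
  | inv g _ ih =>
    have := ih (g⁻¹ u) (g⁻¹ v)
    rw [show g (g⁻¹ u) = u from g.apply_symm_apply u,
      show g (g⁻¹ v) = v from g.apply_symm_apply v] at this
    exact this.symm

/-- two points of `A` are moved to two given points -/
theorem move {c : A ≃+ A} (htr : ∀ x y : A, x ≠ 0 → y ≠ 0 → ∃ k : ℕ, c^[k] x = y)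
    {x y x' y' : A} (h : x = y ↔ x' = y') :
    ∃ g ∈ Gr (m := m) (ε := ε) c, (∀ s, g (.inl (s, x)) = .inl (s, x')) ∧
      (∀ s, g (.inl (s, y)) = .inl (s, y')) ∧ ∀ i, g (.inr i) = .inr i := by
  by_cases hxy : x = y
  · have hxy' := h.1 hxy
    subst hxy hxy'
    refine ⟨tr (x' - x), tr_mem c _, ?_, ?_, fun i => rfl⟩
    · intro s
      rw [tr_inl]
      congr 2
      abel
    · intro s
      rw [tr_inl]
      congr 2
      abel
  · have hxy' : x' ≠ y' := fun h1 => hxy (h.2 h1)
    obtain ⟨k, hk⟩ := htr (x - y) (x' - y') (sub_ne_zero.2 hxy) (sub_ne_zero.2 hxy')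
    have hk2 : c^[k] x - c^[k] y = x' - y' := by
      rw [← hk]
      have : ∀ k : ℕ, ∀ a b : A, c^[k] (a - b) = c^[k] a - c^[k] b := by
        intro k
        induction k with
        | zero => intro a b; rfl
        | succ k ih =>
          intro a b
          rw [Function.iterate_succ_apply, Function.iterate_succ_apply,
            Function.iterate_succ_apply, map_sub, ih]
      rw [this]
    refine ⟨tr (x' - c^[k] x) * cA c ^ k,
      Subgroup.mul_mem _ (tr_mem c _) (Subgroup.pow_mem _ (cA_mem c) k), ?_, ?_, ?_⟩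
    · intro s
      rw [Equiv.Perm.mul_apply, cA_pow_inl, tr_inl]
      congr 2
      abel
    · intro s
      rw [Equiv.Perm.mul_apply, cA_pow_inl, tr_inl]
      congr 2
      have : y' = x' - (x' - y') := by abel
      rw [this, ← hk2]
      abel
    · intro i
      rw [Equiv.Perm.mul_apply, cA_pow_inr, tr_inr]

theorem orb_trans {c : A ≃+ A} (htr : ∀ x y : A, x ≠ 0 → y ≠ 0 → ∃ k : ℕ, c^[k] x = y)
    (j : JJ m ε) (u v u' v' : VV m A ε) (h : orb u v = some j) (h' : orb u' v' = some j) :
    ∃ g ∈ Gr (m := m) (ε := ε) c, (g u = u' ∧ g v = v') ∨ (g u = v' ∧ g v = u') := by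
  rcases u with ⟨s, x⟩ | i <;> rcases v with ⟨t, y⟩ | i₂
  · by_cases hst : s = t
    · subst hst
      by_cases hxy : x = y
      · subst hxy
        rw [orb_self] at h
        cases h
      rw [orb_same hxy] at h
      simp only [Option.some.injEq] at h
      subst h
      rcases u' with ⟨s', x'⟩ | i' <;> rcases v' with ⟨t', y'⟩ | i₂'
      · by_cases hst' : s' = t'
        · subst hst'
          by_cases hxy' : x' = y'
          · subst hxy'
            rw [orb_self] at h'
            cases h'
          rw [orb_same hxy'] at h'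
          simp only [Option.some.injEq, Sum.inl.injEq] at h'
          subst h'
          obtain ⟨g, hg, h1, h2, -⟩ := move (m := m) (ε := ε) htr (x := x) (y := y) (x' := x')
            (y' := y') (by simp [hxy, hxy'])
          exact ⟨g, hg, Or.inl ⟨h1 _, h2 _⟩⟩
        · rw [orb_diff hst'] at h'
          simp at h'
      · rw [orb_lr] at h'
        simp at h'
      · rw [orb_rl] at h'
        simp at h'
      · cases h'
    · rw [orb_diff hst] at h
      simp only [Option.some.injEq] at h
      subst h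
      rcases u' with ⟨s', x'⟩ | i' <;> rcases v' with ⟨t', y'⟩ | i₂'
      · by_cases hst' : s' = t'
        · subst hst'
          by_cases hxy' : x' = y'
          · subst hxy'
            rw [orb_self] at h'
            cases h'
          rw [orb_same hxy'] at h'
          simp at h'
        · rw [orb_diff hst'] at h'
          simp only [Option.some.injEq, Sum.inr.injEq, Sum.inl.injEq, Prod.mk.injEq,
            decide_eq_decide, pr_eq_iff] at h'
          obtain ⟨h1, h2⟩ := h'
          rcases h1 with ⟨rfl, rfl⟩ | ⟨rfl, rfl⟩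
          · obtain ⟨g, hg, h3, h4, -⟩ := move (m := m) (ε := ε) htr h2.symm
            exact ⟨g, hg, Or.inl ⟨h3 _, h4 _⟩⟩
          · obtain ⟨g, hg, h3, h4, -⟩ := move (m := m) (ε := ε) htr
              (x := x) (y := y) (x' := y') (y' := x') (by rw [← h2]; exact eq_comm)
            exact ⟨g, hg, Or.inr ⟨h3 _, h4 _⟩⟩
      · rw [orb_lr] at h'
        simp at h'
      · rw [orb_rl] at h'
        simp at h'
      · cases h'
  · rw [orb_lr] at h
    simp only [Option.some.injEq] at h
    subst h
    rcases u' with ⟨s', x'⟩ | i' <;> rcases v' with ⟨t', y'⟩ | i₂'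
    · by_cases hst' : s' = t'
      · subst hst'
        by_cases hxy' : x' = y'
        · subst hxy'
          rw [orb_self] at h'
          cases h'
        rw [orb_same hxy'] at h'
        simp at h'
      · rw [orb_diff hst'] at h'
        simp at h'
    · rw [orb_lr] at h'
      simp only [Option.some.injEq, Sum.inr.injEq, Prod.mk.injEq] at h'
      obtain ⟨rfl, rfl⟩ := h'
      obtain ⟨g, hg, h3, -, h5⟩ := move (m := m) (ε := ε) htr
        (x := x) (y := x) (x' := x') (y' := x') (by simp)
      exact ⟨g, hg, Or.inl ⟨h3 _, h5 _⟩⟩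
    · rw [orb_rl] at h'
      simp only [Option.some.injEq, Sum.inr.injEq, Prod.mk.injEq] at h'
      obtain ⟨rfl, rfl⟩ := h'
      obtain ⟨g, hg, h3, -, h5⟩ := move (m := m) (ε := ε) htr
        (x := x) (y := x) (x' := y') (y' := y') (by simp)
      exact ⟨g, hg, Or.inr ⟨h3 _, h5 _⟩⟩
    · cases h'
  · rw [orb_rl] at h
    simp only [Option.some.injEq] at h
    subst h
    rcases u' with ⟨s', x'⟩ | i' <;> rcases v' with ⟨t', y'⟩ | i₂'
    · by_cases hst' : s' = t'
      · subst hst'
        by_cases hxy' : x' = y'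
        · subst hxy'
          rw [orb_self] at h'
          cases h'
        rw [orb_same hxy'] at h'
        simp at h'
      · rw [orb_diff hst'] at h'
        simp at h'
    · rw [orb_lr] at h'
      simp only [Option.some.injEq, Sum.inr.injEq, Prod.mk.injEq] at h'
      obtain ⟨rfl, rfl⟩ := h'
      obtain ⟨g, hg, h3, -, h5⟩ := move (m := m) (ε := ε) htr
        (x := y) (y := y) (x' := x') (y' := x') (by simp)
      exact ⟨g, hg, Or.inr ⟨h5 _, h3 _⟩⟩
    · rw [orb_rl] at h'
      simp only [Option.some.injEq, Sum.inr.injEq, Prod.mk.injEq] at h'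
      obtain ⟨rfl, rfl⟩ := h'
      obtain ⟨g, hg, h3, -, h5⟩ := move (m := m) (ε := ε) htr
        (x := y) (y := y) (x' := y') (y' := y') (by simp)
      exact ⟨g, hg, Or.inl ⟨h5 _, h3 _⟩⟩
    · cases h'
  · cases h

/-- the graph of a configuration -/
abbrev GC (A : Type) [DecidableEq A] (χ : JJ m ε → Bool) : SimpleGraph (VV m A ε) :=
  GR orb orb_symm orb_self χ

theorem relationC [Fintype A] [Nontrivial A] (hε : ε ≤ 1) {p : ℕ} [Fact p.Prime]
    (htor : ∀ x : A, p • x = 0) (c : A ≃+ A)
    (htr : ∀ x y : A, x ≠ 0 → y ≠ 0 → ∃ k : ℕ, c^[k] x = y) {n q : ℕ}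
    {Q : SimpleGraph (Fin n) → Prop} (hQ : GP n q Q) (hV : Fintype.card (VV m A ε) = n)
    (hq : q < n.choose 2) :
    ∑ χ : JJ m ε → Bool, sgn χ * bit (PV Q (VV m A ε) (GC A χ)) = 0 := by
  refine rel_orb hQ (V := VV m A ε) hV p tr (cA c) tr_comm ?_ ?_ orb
    orb_symm orb_self (orb_ne_none hε) orb_tr (orb_cA c) orb_exists
    (orb_trans htr) hq
  · intro a
    ext v : 1
    rcases v with ⟨s, x⟩ | i
    · rw [tr_pow_inl, htor, add_zero]
      rfl
    · rw [tr_pow_inr]
      rfl
  · intro a
    rw [cA_conj]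
    exact Subgroup.subset_closure (Set.mem_range_self _)

end Pool.Agent.H512.BD
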