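import Pool.Agent.H512.BD.Sym

set_option autoImplicit false
set_option linter.unusedSectionVars false

/-!
MP_257582_lc. The signed sum is not zero.
-/

namespace Pool.Agent.H512.BD

open Finset
open Pool.Agent.H119R2.Kp (pve_map_adj)
open Pool.Agent.TH669.KP (GR GR_adj sgn bit bit_pos bit_neg bit_congr toggle_zero)

variable {M : ℕ} {A : Type} {ε : ℕ}

theorem TT_empty [DecidableEq A] [Nontrivial A] (g : ∀ s : Fin (M + 1), Ch s) :
    TT (Pg A ε g) = ∅ ↔ ∀ s, g s ≠ none := by
  constructor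
  · intro h s hs
    have : s ∈ TT (Pg A ε g) := (mem_TT_Pg g s).2 (Lay.root hs)
    rw [h] at this
    exact absurd this (Finset.notMem_empty s)
  · intro h
    rw [Finset.eq_empty_iff_forall_notMem]
    intro s hs
    rw [mem_TT_Pg] at hs
    induction hs with
    | root h1 => exact h _ h1
    | step _ _ ih => exact ih

theorem TT_last [DecidableEq A] [Nontrivial A] (g : ∀ s : Fin (M + 1), Ch s) :
    TT (Pg A ε g) = {Fin.last M} ↔
      g (Fin.last M) = none ∧ ∀ s, s ≠ Fin.last M → g s ≠ none := by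
  constructor
  · intro h
    refine ⟨?_, fun s hs h1 => ?_⟩
    · have h1 : Lay g (Fin.last M) := by
        rw [← mem_TT_Pg (A := A) (ε := ε), h]
        exact Finset.mem_singleton_self _
      cases h1 with
      | root h2 => exact h2
      | @step _ t h2 h3 =>
        rw [← mem_TT_Pg (A := A) (ε := ε), h, Finset.mem_singleton] at h3
        exact absurd h3 (ne_of_lt t.2)
    · have h2 : s ∈ TT (Pg A ε g) := (mem_TT_Pg g s).2 (Lay.root h1)
      rw [h, Finset.mem_singleton] at h2
      exact hs h2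
  · rintro ⟨h1, h2⟩
    ext s
    rw [mem_TT_Pg, Finset.mem_singleton]
    constructor
    · intro h
      induction h with
      | @root s h3 =>
        by_contra h4
        exact h2 s h4 h3
      | @step s t _ _ ih =>
        exfalso
        have h4 := t.2
        rw [ih] at h4
        exact absurd h4 (not_lt.2 (Fin.le_last s))
    · rintro rfl
      exact Lay.root h1

theorem wt_all {g : ∀ s : Fin (M + 1), Ch s} (h : ∀ s, g s ≠ none) : wt g = (-1) ^ (M + 1) := by
  unfold wt
  rw [Finset.prod_congr rfl fun s _ => if_neg (h s), Finset.prod_const, Finset.card_univ,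
    Fintype.card_fin]

theorem wt_last {g : ∀ s : Fin (M + 1), Ch s}
    (h : g (Fin.last M) = none ∧ ∀ s, s ≠ Fin.last M → g s ≠ none) : wt g = (-1) ^ M := by
  unfold wt
  rw [Fin.prod_univ_castSucc, if_pos h.1, mul_one,
    Finset.prod_congr rfl fun s _ => if_neg (h.2 _ (Fin.castSucc_lt_last s).ne),
    Finset.prod_const, Finset.card_univ, Fintype.card_fin]

/-- attach the last copy, or add its inner pairs -/
def upd (g : ∀ s : Fin (M + 1), Ch s) (c : Option {t : Fin (M + 1) // t < Fin.last M}) :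
    ∀ s : Fin (M + 1), Ch s := Function.update g (Fin.last M) (some c)

theorem Pg_upd {g : ∀ s : Fin (M + 1), Ch s} (h : g (Fin.last M) = none)
    (c : Option {t : Fin (M + 1) // t < Fin.last M}) : Pg A ε g ≤ Pg A ε (upd g c) := by
  have hc := (Pg_le (A := A) (ε := ε) (g := upd g c)).1 le_rfl
  rw [Pg_le]
  intro s
  by_cases hs : s = Fin.last M
  · subst hs
    rw [h]
    trivial
  · have h1 := hc s
    unfold upd at h1
    rw [Function.update_of_ne hs] at h1
    exact h1

theorem card_ch : Fintype.card (Option {t : Fin (M + 1) // t < Fin.last M}) = M + 1 := by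
  rw [Fintype.card_option, Fintype.card_subtype]
  congr 1
  have : (univ.filter fun t : Fin (M + 1) => t < Fin.last M) = Finset.Iio (Fin.last M) := by
    ext t
    simp only [Finset.mem_filter, Finset.mem_univ, true_and, Finset.mem_Iio]
  rw [this, Fin.card_Iio]
  rfl

theorem pos {Φ : Setoid (VV (M + 1) A ε) → Prop} (hΦ : ∀ ρ σ, ρ ≤ σ → Φ ρ → Φ σ)
    (hstr : ∃ (g : ∀ s : Fin (M + 1), Ch s) (c : Option {t : Fin (M + 1) // t < Fin.last M}),
      (g (Fin.last M) = none ∧ ∀ s, s ≠ Fin.last M → g s ≠ none) ∧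
      Φ (Pg A ε (upd g c)) ∧ ¬ Φ (Pg A ε g)) :
    ((M : ℤ) + 1) * ∑ g : ∀ s : Fin (M + 1), Ch s,
        bit (g (Fin.last M) = none ∧ ∀ s, s ≠ Fin.last M → g s ≠ none) * bit (Φ (Pg A ε g)) <
      ∑ g : ∀ s : Fin (M + 1), Ch s, bit (∀ s, g s ≠ none) * bit (Φ (Pg A ε g)) := by
  classical
  set N1 : Finset (∀ s : Fin (M + 1), Ch s) :=
    univ.filter fun g => g (Fin.last M) = none ∧ ∀ s, s ≠ Fin.last M → g s ≠ none with hN1
  set N : Finset (∀ s : Fin (M + 1), Ch s) := univ.filter fun g => ∀ s, g s ≠ none with hN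
  have hbit : ∀ p : Prop, 0 ≤ bit p := fun p => by
    by_cases h : p
    · rw [bit_pos h]; norm_num
    · rw [bit_neg h]
  have h1 : ∑ g : ∀ s : Fin (M + 1), Ch s,
      bit (g (Fin.last M) = none ∧ ∀ s, s ≠ Fin.last M → g s ≠ none) * bit (Φ (Pg A ε g)) =
      ∑ g ∈ N1, bit (Φ (Pg A ε g)) := by
    rw [hN1, Finset.sum_filter]
    refine Finset.sum_congr rfl fun g _ => ?_
    by_cases h : g (Fin.last M) = none ∧ ∀ s, s ≠ Fin.last M → g s ≠ none
    · rw [if_pos h, bit_pos h, one_mul]
    · rw [if_neg h, bit_neg h, zero_mul]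
  have h2 : ∑ g : ∀ s : Fin (M + 1), Ch s, bit (∀ s, g s ≠ none) * bit (Φ (Pg A ε g)) =
      ∑ g ∈ N, bit (Φ (Pg A ε g)) := by
    rw [hN, Finset.sum_filter]
    refine Finset.sum_congr rfl fun g _ => ?_
    by_cases h : ∀ s, g s ≠ none
    · rw [if_pos h, bit_pos h, one_mul]
    · rw [if_neg h, bit_neg h, zero_mul]
  rw [h1, h2]
  have h3 : ((M : ℤ) + 1) * ∑ g ∈ N1, bit (Φ (Pg A ε g)) =
      ∑ x ∈ N1 ×ˢ (univ : Finset (Option {t : Fin (M + 1) // t < Fin.last M})),
        bit (Φ (Pg A ε x.1)) := by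
    rw [Finset.sum_product, Finset.mul_sum]
    refine Finset.sum_congr rfl fun g _ => ?_
    show _ = ∑ _y : Option {t : Fin (M + 1) // t < Fin.last M}, bit (Φ (Pg A ε g))
    rw [Finset.sum_const, Finset.card_univ, card_ch, nsmul_eq_mul]
    push_cast
    ring
  rw [h3]
  have hinj : Set.InjOn (fun x : (∀ s : Fin (M + 1), Ch s) ×
      Option {t : Fin (M + 1) // t < Fin.last M} => upd x.1 x.2)
      (((N1 ×ˢ (univ : Finset (Option {t : Fin (M + 1) // t < Fin.last M}))) : Finset _) :
        Set _) := by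
    rintro ⟨g, c⟩ hg ⟨g', c'⟩ hg' h
    rw [Finset.mem_coe, Finset.mem_product, hN1, Finset.mem_filter] at hg hg'
    simp only [upd] at h
    have hcc : c = c' := by
      have := congrFun h (Fin.last M)
      rw [Function.update_self, Function.update_self] at this
      simpa using this
    have hgg : g = g' := by
      funext s
      by_cases hs : s = Fin.last M
      · subst hs
        exact hg.1.2.1.trans hg'.1.2.1.symm
      · have := congrFun h s
        rwa [Function.update_of_ne hs, Function.update_of_ne hs] at this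
    rw [hcc, hgg]
  have h4 : ∑ x ∈ N1 ×ˢ (univ : Finset (Option {t : Fin (M + 1) // t < Fin.last M})),
      bit (Φ (Pg A ε (upd x.1 x.2))) ≤ ∑ g ∈ N, bit (Φ (Pg A ε g)) := by
    rw [← Finset.sum_image (f := fun g => bit (Φ (Pg A ε g))) hinj]
    refine Finset.sum_le_sum_of_subset_of_nonneg ?_ fun g _ _ => hbit _
    intro g hg
    rw [Finset.mem_image] at hg
    obtain ⟨⟨g, c⟩, hg, rfl⟩ := hg
    rw [Finset.mem_product, hN1, Finset.mem_filter] at hg
    rw [hN, Finset.mem_filter]
    refine ⟨Finset.mem_univ _, fun s => ?_⟩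
    by_cases hs : s = Fin.last M
    · subst hs
      simp [upd]
    · simp only [upd, Function.update_of_ne hs]
      exact hg.1.2.2 s hs
  refine lt_of_lt_of_le ?_ h4
  obtain ⟨g, c, hg, hc1, hc2⟩ := hstr
  refine Finset.sum_lt_sum ?_ ⟨(g, c), ?_, ?_⟩
  · rintro ⟨g, c⟩ hg
    rw [Finset.mem_product, hN1, Finset.mem_filter] at hg
    by_cases h : Φ (Pg A ε g)
    · rw [bit_pos h, bit_pos (hΦ _ _ (Pg_upd hg.1.2.1 c) h)]
    · rw [bit_neg h]
      exact hbit _
  · rw [Finset.mem_product, hN1, Finset.mem_filter]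
    exact ⟨⟨Finset.mem_univ _, hg⟩, Finset.mem_univ _⟩
  · rw [bit_neg hc2, bit_pos hc1]
    norm_num

/-- the copies from `i` on are merged, the others are separate -/
def kp (i : ℕ) : VV (M + 1) A ε → ℕ ⊕ Fin ε
  | .inl (s, _) => .inl (min s.1 i)
  | .inr j => .inr j

/-- the same, and the elements of the last copy are isolated -/
def km (i : ℕ) : VV (M + 1) A ε → ℕ ⊕ (A ⊕ Fin ε)
  | .inl (s, x) => if s = Fin.last M then .inr (.inl x) else .inl (min s.1 i)
  | .inr j => .inr (.inr j)

/-- the copies after `i` are attached to `i` -/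
def gi (i : Fin (M + 1)) : ∀ s : Fin (M + 1), Ch s :=
  fun s => if h : i < s then some (some ⟨i, h⟩) else some none

theorem kp_le (i : Fin (M + 1)) : Setoid.ker (kp (A := A) (ε := ε) i.1) ≤ Pg A ε (gi i) := by
  have hc := (Pg_le (A := A) (ε := ε) (g := gi i)).1 le_rfl
  have h1 : ∀ s x, ∃ t : Fin (M + 1), t.1 = min s.1 i.1 ∧
      Pg A ε (gi i) (.inl (s, x)) (.inl (t, x)) := by
    intro s x
    by_cases h : i < s
    · refine ⟨i, ?_, ?_⟩
      · have : i.1 < s.1 := h
        omega
      · have h2 := hc s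
        unfold gi at h2
        rw [dif_pos h] at h2
        exact h2 x
    · refine ⟨s, ?_, (Pg A ε (gi i)).refl _⟩
      have : s.1 ≤ i.1 := not_lt.1 h
      omega
  have h2 : ∀ s x y, Pg A ε (gi i) (.inl (s, x)) (.inl (s, y)) := by
    intro s x y
    have h3 : ∀ t : Fin (M + 1), ¬ i < t → ∀ x y, Pg A ε (gi i) (.inl (t, x)) (.inl (t, y)) := by
      intro t ht
      have h2 := hc t
      unfold gi at h2
      rw [dif_neg ht] at h2
      exact h2
    by_cases h : i < s
    · have h4 := hc s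
      unfold gi at h4
      rw [dif_pos h] at h4
      exact (Pg A ε (gi i)).trans (h4 x) ((Pg A ε (gi i)).trans (h3 i (lt_irrefl _) x y)
        ((Pg A ε (gi i)).symm (h4 y)))
    · exact h3 s h x y
  intro u v huv
  change kp i.1 u = kp i.1 v at huv
  rcases u with ⟨s, x⟩ | j <;> rcases v with ⟨t, y⟩ | j'
  · simp only [kp, Sum.inl.injEq] at huv
    obtain ⟨s', hs', h3⟩ := h1 s x
    obtain ⟨t', ht', h4⟩ := h1 t y
    have h5 : s' = t' := Fin.ext (by omega)
    subst h5
    exact (Pg A ε (gi i)).trans h3 ((Pg A ε (gi i)).trans (h2 s' x y)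
      ((Pg A ε (gi i)).symm h4))
  · simp [kp] at huv
  · simp [kp] at huv
  · simp only [kp, Sum.inr.injEq] at huv
    subst huv
    exact (Pg A ε (gi i)).refl _

theorem le_km (i : Fin (M + 1)) :
    Pg A ε (Function.update (gi i) (Fin.last M) none) ≤
      Setoid.ker (km (A := A) (ε := ε) i.1) := by
  rw [Pg_le]
  intro s
  by_cases hs : s = Fin.last M
  · subst hs
    rw [Function.update_self]
    trivial
  · rw [Function.update_of_ne hs]
    by_cases h : i < s
    · have h1 : gi i s = some (some ⟨i, h⟩) := dif_pos h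
      rw [h1]
      intro x
      rw [Setoid.ker_def]
      have h2 : i ≠ Fin.last M := ne_of_lt (lt_of_lt_of_le h (Fin.le_last s))
      have h3 : i.1 < s.1 := h
      simp only [km, if_neg hs, if_neg h2]
      congr 1
      omega
    · have h1 : gi i s = some none := dif_neg h
      rw [h1]
      intro x y
      rw [Setoid.ker_def]
      simp only [km, if_neg hs]

theorem km_map [DecidableEq A] {i : Fin (M + 1)} (hi : i.1 + 1 ≤ M) :
    (clo (Setoid.ker (km (A := A) (ε := ε) i.1))).map
      (sV (Equiv.swap i (Fin.last M))).toEmbedding ≤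
      clo (Setoid.ker (kp (A := A) (ε := ε) (i.1 + 1))) := by
  intro u v huv
  rw [pve_map_adj] at huv
  obtain ⟨u, rfl⟩ := (sV (A := A) (ε := ε) (Equiv.swap i (Fin.last M))).surjective u
  obtain ⟨v, rfl⟩ := (sV (A := A) (ε := ε) (Equiv.swap i (Fin.last M))).surjective v
  rw [Equiv.symm_apply_apply, Equiv.symm_apply_apply] at huv
  obtain ⟨h1, h2⟩ := huv
  refine ⟨fun h => h1 ((sV _).injective h), ?_⟩
  rw [Setoid.ker_def] at h2 ⊢
  have hil : i ≠ Fin.last M := fun h => by
    rw [h] at hi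
    simp at hi
  rcases u with ⟨s, x⟩ | j <;> rcases v with ⟨t, y⟩ | j'
  · rw [sV_inl, sV_inl]
    by_cases hs : s = Fin.last M
    · by_cases ht : t = Fin.last M
      · exfalso
        subst hs ht
        simp only [km, if_true, Sum.inr.injEq, Sum.inl.injEq] at h2
        exact h1 (by rw [h2])
      · simp [km, hs, ht] at h2
    · by_cases ht : t = Fin.last M
      · simp [km, hs, ht] at h2
      · simp only [km, if_neg hs, if_neg ht, Sum.inl.injEq] at h2
        simp only [kp, Sum.inl.injEq]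
        have e1 : ∀ s : Fin (M + 1), s ≠ Fin.last M →
            (s.1 < i.1 → (Equiv.swap i (Fin.last M) s).1 = s.1) ∧
            (i.1 ≤ s.1 → i.1 + 1 ≤ (Equiv.swap i (Fin.last M) s).1) := by
          intro s hs
          by_cases hsi : s = i
          · subst hsi
            rw [Equiv.swap_apply_left]
            refine ⟨fun h => absurd h (lt_irrefl _), fun _ => ?_⟩
            simpa using hi
          · rw [Equiv.swap_apply_of_ne_of_ne hsi hs]
            refine ⟨fun _ => rfl, fun h => ?_⟩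
            have : s.1 ≠ i.1 := fun h => hsi (Fin.ext h)
            omega
        obtain ⟨a1, a2⟩ := e1 s hs
        obtain ⟨b1, b2⟩ := e1 t ht
        rcases lt_or_ge s.1 i.1 with h3 | h3
        · have h4 : t.1 < i.1 := by omega
          have := a1 h3
          have := b1 h4
          omega
        · have h4 : i.1 ≤ t.1 := by omega
          have := a2 h3
          have := b2 h4
          omega
  · exfalso
    by_cases hs : s = Fin.last M <;> simp [km, hs] at h2
  · exfalso
    by_cases ht : t = Fin.last M <;> simp [km, ht] at h2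
  · simp only [km, Sum.inr.injEq] at h2
    rw [h2]

theorem strict [DecidableEq A] {Q : SimpleGraph (VV (M + 1) A ε) → Prop}
    (hmono : ∀ G H, G ≤ H → Q G → Q H)
    (hiso : ∀ (σ : Equiv.Perm (VV (M + 1) A ε)) G, Q G → Q (G.map σ.toEmbedding))
    (h3 : Q (clo (Setoid.ker (kp 0)))) (h3' : ¬ Q (clo (Setoid.ker (km M)))) :
    ∃ (g : ∀ s : Fin (M + 1), Ch s) (c : Option {t : Fin (M + 1) // t < Fin.last M}),
      (g (Fin.last M) = none ∧ ∀ s, s ≠ Fin.last M → g s ≠ none) ∧
      Q (clo (Pg A ε (upd g c))) ∧ ¬ Q (clo (Pg A ε g)) := by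
  by_contra hcon
  push Not at hcon
  have key : ∀ i : Fin (M + 1), Q (clo (Setoid.ker (kp i.1))) →
      Q (clo (Setoid.ker (km i.1))) := by
    intro i hQ
    refine hmono _ _ (clo_mono (le_km i)) ?_
    have h1 : ∃ c : Option {t : Fin (M + 1) // t < Fin.last M},
        gi i (Fin.last M) = some c := by
      unfold gi
      by_cases h : i < Fin.last M
      · exact ⟨some ⟨i, h⟩, dif_pos h⟩
      · exact ⟨none, dif_neg h⟩
    obtain ⟨c, hc⟩ := h1
    refine hcon _ c ⟨Function.update_self _ _ _, fun s hs => ?_⟩ ?_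
    · rw [Function.update_of_ne hs]
      unfold gi
      split_ifs <;> simp
    · refine hmono _ _ (clo_mono ?_) hQ
      have h2 : upd (Function.update (gi i) (Fin.last M) none) c = gi i := by
        unfold upd
        rw [Function.update_idem, ← hc, Function.update_eq_self]
      rw [h2]
      exact kp_le i
  have step : ∀ i : ℕ, i ≤ M → Q (clo (Setoid.ker (kp i))) := by
    intro i
    induction i with
    | zero => exact fun _ => h3
    | succ i ih =>
      intro hi
      have h1 := key ⟨i, by omega⟩ (ih (by omega))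
      exact hmono _ _ (km_map (i := ⟨i, by omega⟩) hi) (hiso _ _ h1)
  exact h3' (key (Fin.last M) (step M le_rfl))

theorem main_V [DecidableEq A] [AddCommGroup A] [Fintype A] (hA : 3 ≤ Fintype.card A)
    (c : A ≃+ A) (htr : ∀ x y : A, x ≠ 0 → y ≠ 0 → ∃ k : ℕ, c^[k] x = y)
    {Q : SimpleGraph (VV (M + 1) A ε) → Prop}
    (hmono : ∀ G H, G ≤ H → Q G → Q H)
    (hiso : ∀ (σ : Equiv.Perm (VV (M + 1) A ε)) G, Q G → Q (G.map σ.toEmbedding))
    (hε : ε ≤ 1) (hcl : ∀ G : SimpleGraph (VV (M + 1) A ε), (∀ u v, G.Reachable u v →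
      G.edist u v + 1 ≤ ((2 * (M + 1) + ε : ℕ) : ℕ∞)) → RadLE (max (M + 1) 3) G →
      Q (clo G.reachableSetoid) → Q G)
    (hbig : ∀ G : SimpleGraph (VV (M + 1) A ε), (∀ u v, G.Reachable u v →
      G.edist u v + 1 ≤ ((2 * (M + 1) + ε : ℕ) : ℕ∞)) → RadLE (max (M + 1) 3) G → Q G →
      ManySmall (Fintype.card A) (M + 1) G → Q (big (M + 1) G))
    (h3 : Q (clo (Setoid.ker (kp 0)))) (h3' : ¬ Q (clo (Setoid.ker (km M)))) :
    ∑ χ : JJ (M + 1) ε → Bool, sgn χ * bit (Q (GC A χ)) ≠ 0 := by
  classical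
  have hnt : Nontrivial A := Fintype.one_lt_card_iff_nontrivial.1 (by omega)
  have hQ : ∀ χ : JJ (M + 1) ε → Bool,
      Q (GC A χ) ↔ Q (clo (GC A χ).reachableSetoid) := fun χ =>
    ⟨hmono _ _ (le_clo _), hcl _ (fun u v huv => diam_bound c htr χ huv) (GC_rad hA hε χ)⟩
  have hX : ∀ T : Finset (Fin (M + 1)), XX Q T = ∑ g : ∀ s : Fin (M + 1), Ch s,
      wt g * (bit (Q (clo (Pg A ε g))) * bit (TT (Pg A ε g) = T)) := by
    intro T
    rw [← rec_sum hA (fun ρ => bit (Q (clo ρ)) * bit (TT ρ = T))]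
    unfold XX
    refine Finset.sum_congr rfl fun χ _ => ?_
    rw [bit_congr (hQ χ)]
  have hX0 : XX Q ∅ = (-1) ^ (M + 1) * ∑ g : ∀ s : Fin (M + 1), Ch s,
      bit (∀ s, g s ≠ none) * bit (Q (clo (Pg A ε g))) := by
    rw [hX, Finset.mul_sum]
    refine Finset.sum_congr rfl fun g _ => ?_
    rw [bit_congr (TT_empty g)]
    by_cases h : ∀ s, g s ≠ none
    · rw [wt_all h]
      ring
    · rw [bit_neg h]
      ring
  have hX1 : XX Q {Fin.last M} = (-1) ^ M * ∑ g : ∀ s : Fin (M + 1), Ch s,
      bit (g (Fin.last M) = none ∧ ∀ s, s ≠ Fin.last M → g s ≠ none) *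
        bit (Q (clo (Pg A ε g))) := by
    rw [hX, Finset.mul_sum]
    refine Finset.sum_congr rfl fun g _ => ?_
    rw [bit_congr (TT_last g)]
    by_cases h : g (Fin.last M) = none ∧ ∀ s, s ≠ Fin.last M → g s ≠ none
    · rw [wt_last h]
      ring
    · rw [bit_neg h]
      ring
  have hpos := pos (A := A) (ε := ε) (Φ := fun ρ => Q (clo ρ))
    (fun ρ σ h => hmono _ _ (clo_mono h)) (strict hmono hiso h3 h3')
  rw [sum_XX hA c htr hmono hε hbig, Finset.sum_congr rfl fun z _ => XX_sJ hiso z (Fin.last M),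
    Finset.sum_const, Finset.card_univ, Fintype.card_fin, hX0, hX1, nsmul_eq_mul]
  intro h
  have h5 : (-1 : ℤ) ^ M * (((M : ℤ) + 1) * (∑ g : ∀ s : Fin (M + 1), Ch s,
      bit (g (Fin.last M) = none ∧ ∀ s, s ≠ Fin.last M → g s ≠ none) *
        bit (Q (clo (Pg A ε g)))) - ∑ g : ∀ s : Fin (M + 1), Ch s,
      bit (∀ s, g s ≠ none) * bit (Q (clo (Pg A ε g)))) = 0 := by
    rw [← h]
    push_cast
    ring
  rcases mul_eq_zero.1 h5 with h6 | h6
  · exact absurd h6 (pow_ne_zero _ (by norm_num))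
  · rw [sub_eq_zero] at h6
    exact absurd h6 hpos.ne

end Pool.Agent.H512.BD
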