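import Pool.Agent.H512.BD.Diam

set_option autoImplicit false
set_option linter.unusedSectionVars false

/-!
MP_257582_lc. A bound for the radius of the components of graphs with many automorphisms.
-/

namespace Pool.Agent.H512.BD

open Finset
open Pool.Agent.TH669.KP (GR GR_adj)

/-- every component has a vertex at distance at most `R` from all its vertices -/
def RadLE {V : Type} (R : ℕ) (G : SimpleGraph V) : Prop :=
  ∀ u, ∃ w, G.Reachable u w ∧ ∀ v, G.Reachable w v → G.edist w v ≤ R

/-- the vertices on a walk -/
theorem walk_seg {V : Type} {G : SimpleGraph V} {u v : V} (p : G.Walk u v) (i k : ℕ)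
    (hk : i + k ≤ p.length) : G.edist (p.getVert i) (p.getVert (i + k)) ≤ (k : ℕ∞) := by
  induction k with
  | zero => simp [SimpleGraph.edist_self]
  | succ k ih =>
    have ha : G.Adj (p.getVert (i + k)) (p.getVert (i + (k + 1))) :=
      p.adj_getVert_succ (by omega)
    have h3 : G.edist (p.getVert (i + k)) (p.getVert (i + (k + 1))) = 1 :=
      SimpleGraph.edist_eq_one_iff_adj.2 ha
    refine (SimpleGraph.edist_triangle (v := p.getVert (i + k))).trans ?_
    rw [h3]
    push_cast
    exact add_le_add (ih (by omega)) le_rfl

/-- the vertices on a walk -/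
theorem walk_pts {V : Type} {G : SimpleGraph V} {u v : V} (p : G.Walk u v)
    {i j : ℕ} (hij : i ≤ j) (hj : j ≤ p.length) :
    G.edist u (p.getVert i) ≤ (i : ℕ∞) ∧ G.edist (p.getVert j) v ≤ ((p.length - j : ℕ) : ℕ∞) := by
  refine ⟨?_, ?_⟩
  · have := walk_seg p 0 i (by omega)
    rwa [SimpleGraph.Walk.getVert_zero, zero_add] at this
  · have := walk_seg p j (p.length - j) (by omega)
    rw [show j + (p.length - j) = p.length by omega, SimpleGraph.Walk.getVert_length] at this
    exact this

/-- The distance of `v₀` from a part: a shortest path to the part meets every part at most once. -/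
theorem to_part {V K : Type} {G : SimpleGraph V} (part : V → K)
    (haut : ∀ u v, part u = part v → ∃ g : Equiv.Perm V, g u = v ∧
      (∀ a b, G.Adj (g a) (g b) ↔ G.Adj a b) ∧ ∀ a, part (g a) = part a)
    {v₀ w : V} (h : G.Reachable v₀ w) :
    ∃ w', part w' = part w ∧ ∃ p : G.Walk v₀ w',
      (∀ w'', part w'' = part w → (p.length : ℕ∞) ≤ G.edist v₀ w'') ∧
      ∀ i j, i < j → j ≤ p.length → part (p.getVert i) ≠ part (p.getVert j) := by
  classical
  have h0 : ∃ i : ℕ, ∃ w', part w' = part w ∧ ∃ p : G.Walk v₀ w', p.length = i := by
    obtain ⟨p⟩ := h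
    exact ⟨_, w, rfl, p, rfl⟩
  obtain ⟨w', hw', p, hp⟩ := Nat.find_spec h0
  have hmin : ∀ w'', part w'' = part w → (p.length : ℕ∞) ≤ G.edist v₀ w'' := by
    intro w'' hw''
    by_cases h1 : G.edist v₀ w'' = ⊤
    · rw [h1]
      exact le_top
    · obtain ⟨p', hp'⟩ := SimpleGraph.exists_walk_of_edist_ne_top h1
      rw [← hp', hp]
      exact_mod_cast Nat.find_min' h0 ⟨w'', hw'', p', rfl⟩
  refine ⟨w', hw', p, hmin, ?_⟩
  intro i j hij hj hpart
  obtain ⟨g, hg1, hg2, hg3⟩ := haut _ _ hpart.symm
  obtain ⟨-, e2⟩ := walk_pts p (le_refl j) hj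
  obtain ⟨e1, -⟩ := walk_pts p (le_refl i) (hij.le.trans hj)
  rw [← edist_aut g hg2, hg1] at e2
  have e3 : G.edist v₀ (g w') ≤ ((i + (p.length - j) : ℕ) : ℕ∞) := by
    refine (SimpleGraph.edist_triangle (v := p.getVert i)).trans ?_
    push_cast
    exact add_le_add e1 e2
  have e4 := (hmin (g w') ((hg3 w').trans hw')).trans e3
  have e5 : p.length ≤ i + (p.length - j) := by exact_mod_cast e4
  omega

/-- Bound for the radius: the parts `inr` have one vertex only, and in a component without such a
vertex all vertices are in different parts, or some vertex is adjacent to all others in its part, or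
there are two adjacent vertices in different parts that have distance at most `2` from all vertices of
their parts. -/
theorem rad_bound {V : Type} {G : SimpleGraph V} {m ε : ℕ} (hε : ε ≤ 1)
    (part : V → Fin m ⊕ Fin ε)
    (haut : ∀ u v, part u = part v → ∃ g : Equiv.Perm V, g u = v ∧
      (∀ a b, G.Adj (g a) (g b) ↔ G.Adj a b) ∧ ∀ a, part (g a) = part a)
    (h1 : ∀ i u v, part u = .inr i → part v = .inr i → u = v)
    (h2 : ∀ u, (∀ v w, G.Reachable u v → G.Reachable u w → part v = part w → v = w) ∨
      (∃ w, G.Reachable u w ∧ ∀ v, part v = part w → G.edist w v ≤ 1) ∨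
      ∃ w w₂, G.Reachable u w ∧ G.Adj w w₂ ∧ part w ≠ part w₂ ∧
        (∀ v, part v = part w → G.edist w v ≤ 2) ∧ ∀ v, part v = part w₂ → G.edist w₂ v ≤ 2) :
    RadLE (max m 3) G := by
  classical
  intro u
  -- the bound for one vertex
  have fin : ∀ (w : V) (d e : ℕ), (∀ v, part v = part w → G.edist w v ≤ (e : ℕ∞)) →
      (∀ v, G.Reachable w v → ∃ w', part w' = part v ∧ G.edist w w' ≤ (d : ℕ∞)) →
      ∀ v, G.Reachable w v → G.edist w v ≤ ((e + d : ℕ) : ℕ∞) := by
    intro w d e h3 h4 v hv
    obtain ⟨w', hw', hd⟩ := h4 v hv
    obtain ⟨g, hg1, hg2, hg3⟩ := haut _ _ hw'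
    have e1 : G.edist (g w) v ≤ d := by
      rw [← hg1, edist_aut g hg2]
      exact hd
    refine (SimpleGraph.edist_triangle (v := g w)).trans ?_
    push_cast
    exact add_le_add (h3 (g w) (hg3 w)) e1
  have key : ∀ v₀ w : V, G.Reachable v₀ w →
      ∃ w', part w' = part w ∧ ∃ p : G.Walk v₀ w',
      (∀ w'', part w'' = part w → (p.length : ℕ∞) ≤ G.edist v₀ w'') ∧ p.length ≤ m ∧
      ((∀ v, G.Reachable v₀ v → ∃ s, part v = .inl s) → p.length + 1 ≤ m ∧
        (p.length + 1 = m → ∀ v, G.Reachable v₀ v → ∃ i ≤ p.length,
          part (p.getVert i) = part v)) := by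
    intro v₀ w hw
    obtain ⟨w', hw', p, hp, hdis⟩ := to_part part haut hw
    have hinj : Function.Injective fun i : Fin (p.length + 1) => part (p.getVert i.1) := by
      intro a b hab
      rcases lt_trichotomy a.1 b.1 with h | h | h
      · exact absurd hab (hdis _ _ h (by omega))
      · exact Fin.ext h
      · exact absurd hab.symm (hdis _ _ h (by omega))
    have hcard := Fintype.card_le_of_injective _ hinj
    rw [Fintype.card_fin, Fintype.card_sum, Fintype.card_fin, Fintype.card_fin] at hcard
    refine ⟨w', hw', p, hp, by omega, fun hc => ?_⟩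
    have hall : ∀ i : Fin (p.length + 1), ∃ s, part (p.getVert i.1) = .inl s := by
      intro i
      refine hc _ ?_
      obtain ⟨e1, -⟩ := walk_pts p (le_refl i.1) (by omega)
      exact SimpleGraph.edist_ne_top_iff_reachable.1
        (ne_top_of_le_ne_top (ENat.natCast_ne_top _) e1)
    choose s hs using hall
    have hinj2 : Function.Injective s := by
      intro a b hab
      apply hinj
      simp only [hs, hab]
    have hcard2 := Fintype.card_le_of_injective _ hinj2
    rw [Fintype.card_fin, Fintype.card_fin] at hcard2
    refine ⟨hcard2, fun hm v hv => ?_⟩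
    have hsurj : Function.Surjective s := by
      refine ((Fintype.bijective_iff_injective_and_card s).2 ⟨hinj2, ?_⟩).2
      rw [Fintype.card_fin, Fintype.card_fin, hm]
    obtain ⟨t, ht⟩ := hc v hv
    obtain ⟨i, hi⟩ := hsurj t
    exact ⟨i.1, by omega, by rw [hs, ht, hi]⟩
  by_cases hfix : ∃ w i, G.Reachable u w ∧ part w = .inr i
  · obtain ⟨w, i, hw, hi⟩ := hfix
    refine ⟨w, hw, fun v hv => ?_⟩
    have := fin w m 0 (fun v hv => by
      rw [h1 i v w (hv.trans hi) hi]
      simp [SimpleGraph.edist_self]) (fun v hv => by
        obtain ⟨w', hw', p, -, hpm, -⟩ := key w v hv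
        refine ⟨w', hw', (SimpleGraph.Walk.edist_le p).trans ?_⟩
        exact_mod_cast hpm) v hv
    refine this.trans ?_
    have : 0 + m ≤ max m 3 := by
      rw [zero_add]
      exact le_max_left _ _
    exact_mod_cast this
  · push Not at hfix
    have hinl : ∀ v₀, G.Reachable u v₀ → ∀ v, G.Reachable v₀ v → ∃ s, part v = .inl s := by
      intro v₀ hv₀ v hv
      rcases hpv : part v with s | i
      · exact ⟨s, rfl⟩
      · exact absurd hpv (hfix v i (hv₀.trans hv))
    have one : ∀ w, G.Reachable u w → ∀ v, G.Reachable w v →
        ∃ w', part w' = part v ∧ G.edist w w' ≤ ((m - 1 : ℕ) : ℕ∞) := by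
      intro w hw v hv
      obtain ⟨w', hw', p, -, -, hpm⟩ := key w v hv
      obtain ⟨hpm, -⟩ := hpm (hinl w hw)
      refine ⟨w', hw', (SimpleGraph.Walk.edist_le p).trans ?_⟩
      have : p.length ≤ m - 1 := by omega
      exact_mod_cast this
    have hm0 : 1 ≤ m := by
      obtain ⟨s, -⟩ := hinl u (SimpleGraph.Reachable.refl _) u (SimpleGraph.Reachable.refl _)
      have := s.2
      omega
    rcases h2 u with hsep | ⟨w, hw, hw2⟩ | ⟨w, w₂, hw, hww, hpp, hw1, hw2⟩
    · refine ⟨u, SimpleGraph.Reachable.refl _, fun v hv => ?_⟩
      obtain ⟨w', hw', hd⟩ := one u (SimpleGraph.Reachable.refl _) v hv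
      have hr : G.Reachable u w' := SimpleGraph.edist_ne_top_iff_reachable.1
        (ne_top_of_le_ne_top (ENat.natCast_ne_top _) hd)
      rw [hsep v w' hv hr hw'.symm]
      refine hd.trans ?_
      have : m - 1 ≤ max m 3 := le_max_of_le_left (Nat.sub_le _ _)
      exact_mod_cast this
    · refine ⟨w, hw, fun v hv => (fin w (m - 1) 1 (by exact_mod_cast hw2) (one w hw) v hv).trans ?_⟩
      have : 1 + (m - 1) ≤ max m 3 := le_max_of_le_left (by omega)
      exact_mod_cast this
    · by_cases hm3 : m ≤ 2
      · refine ⟨w, hw, fun v hv => (fin w (m - 1) 2 (by exact_mod_cast hw1) (one w hw) v hv).trans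
          ?_⟩
        have : 2 + (m - 1) ≤ max m 3 := le_max_of_le_right (by omega)
        exact_mod_cast this
      · by_cases hshort : ∀ v, G.Reachable w v →
          ∃ w', part w' = part v ∧ G.edist w w' ≤ ((m - 2 : ℕ) : ℕ∞)
        · refine ⟨w, hw, fun v hv => (fin w (m - 2) 2 (by exact_mod_cast hw1) hshort v hv).trans
            ?_⟩
          have : 2 + (m - 2) ≤ max m 3 := le_max_of_le_left (by omega)
          exact_mod_cast this
        · push Not at hshort
          obtain ⟨v₁, hv₁, hlong⟩ := hshort
          obtain ⟨w', hw', p, hp, -, hpm⟩ := key w v₁ hv₁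
          obtain ⟨hpm, hall⟩ := hpm (hinl w hw)
          have hlen : p.length + 1 = m := by
            have e1 := lt_of_lt_of_le (hlong w' hw') (SimpleGraph.Walk.edist_le p)
            have e2 : m - 2 < p.length := by exact_mod_cast e1
            omega
          have hall' := hall hlen
          have hw₂ : G.Reachable w w₂ := hww.reachable
          obtain ⟨j, hj, hpj⟩ := hall' w₂ hw₂
          have hadj1 : G.edist w w₂ = 1 := SimpleGraph.edist_eq_one_iff_adj.2 hww
          have hj1 : j = 1 := by
            have hj0 : j ≠ 0 := by
              rintro rfl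
              rw [SimpleGraph.Walk.getVert_zero] at hpj
              exact hpp hpj
            by_contra hj1
            obtain ⟨g, hg1, hg2, hg3⟩ := haut _ _ hpj
            obtain ⟨-, e2⟩ := walk_pts p (le_refl j) hj
            rw [← edist_aut g hg2, hg1] at e2
            have e3 : G.edist w (g w') ≤ ((1 + (p.length - j) : ℕ) : ℕ∞) := by
              refine (SimpleGraph.edist_triangle (v := w₂)).trans ?_
              rw [hadj1]
              push_cast
              exact add_le_add le_rfl e2
            have e4 := (hp (g w') ((hg3 w').trans hw')).trans e3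
            have e5 : p.length ≤ 1 + (p.length - j) := by exact_mod_cast e4
            omega
          subst hj1
          refine ⟨w₂, hw.trans hw₂, fun v hv => (fin w₂ (m - 2) 2 (by exact_mod_cast hw2) ?_ v
            hv).trans ?_⟩
          · intro v hv
            obtain ⟨i, hi, hpi⟩ := hall' v (hw₂.trans hv)
            rcases Nat.eq_zero_or_pos i with rfl | hi0
            · rw [SimpleGraph.Walk.getVert_zero] at hpi
              refine ⟨w, hpi, ?_⟩
              rw [SimpleGraph.edist_comm, hadj1]
              have : 1 ≤ m - 2 := by omega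
              exact_mod_cast this
            · obtain ⟨g, hg1, hg2, hg3⟩ := haut _ _ hpj
              refine ⟨g (p.getVert i), (hg3 _).trans hpi, ?_⟩
              rw [← hg1, edist_aut g hg2]
              have e1 := walk_seg p 1 (i - 1) (by omega)
              rw [show 1 + (i - 1) = i by omega] at e1
              refine e1.trans ?_
              have : i - 1 ≤ m - 2 := by omega
              exact_mod_cast this
          · have : 2 + (m - 2) ≤ max m 3 := le_max_of_le_left (by omega)
            exact_mod_cast this

/-- constant along the edges of a component -/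
theorem reach_const {V B : Type} {G : SimpleGraph V} {F : V → B} {u v : V}
    (h : ∀ a b, G.Reachable u a → G.Adj a b → F a = F b) (huv : G.Reachable u v) :
    F u = F v := by
  obtain ⟨p⟩ := huv
  induction p with
  | nil => rfl
  | cons h1 _ ih =>
    exact (h _ _ (SimpleGraph.Reachable.refl _) h1).trans
      (ih fun a b ha hab => h a b (h1.reachable.trans ha) hab)

variable {m : ℕ} {A : Type} [DecidableEq A] [AddCommGroup A] {ε : ℕ}

/-- the second coordinate -/
def FS : VV m A ε → Option A
  | .inl (_, x) => some x
  | .inr _ => none

/-- the invariant graphs -/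
theorem GC_rad [Fintype A] (hA : 3 ≤ Fintype.card A) (hε : ε ≤ 1) (χ : JJ m ε → Bool) :
    RadLE (max m 3) (GC A χ) := by
  classical
  have hnt : Nontrivial A := Fintype.one_lt_card_iff_nontrivial.1 (by omega)
  have hthird : ∀ x y : A, ∃ z, z ≠ x ∧ z ≠ y := by
    intro x y
    by_contra hcon
    push Not at hcon
    have h1 : (univ : Finset A) ⊆ {x, y} := by
      intro z _
      rw [Finset.mem_insert, Finset.mem_singleton]
      by_cases h : z = x
      · exact Or.inl h
      · exact Or.inr (hcon z h)
    have h2 := (Finset.card_le_card h1).trans Finset.card_le_two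
    rw [Finset.card_univ] at h2
    omega
  refine rad_bound hε (fun v => Sum.map Prod.fst id v) ?_ ?_ ?_
  · rintro (⟨s, x⟩ | i) (⟨t, y⟩ | j) h
    · have hst : s = t := by simpa using h
      subst hst
      refine ⟨tr (y - x), ?_, ?_, ?_⟩
      · rw [tr_inl]
        congr 2
        abel
      · intro a b
        exact GC_Gr (c := AddEquiv.refl A) (tr_mem _ _) χ a b
      · rintro (⟨s, x⟩ | i)
        · rfl
        · rfl
    · cases h
    · cases h
    · have hij : i = j := by simpa using h
      subst hij
      refine ⟨Equiv.refl _, rfl, fun a b => Iff.rfl, fun a => rfl⟩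
  · rintro i (⟨s, x⟩ | j) (⟨t, y⟩ | j') h h'
    all_goals try cases h
    all_goals try cases h'
    rfl
  · intro u
    have hadj : ∀ (j : JJ m ε), χ j = true → ∀ a b : VV m A ε, orb a b = some j →
        (GC A χ).edist a b = 1 := fun j hj a b hab =>
      SimpleGraph.edist_eq_one_iff_adj.2 ((GR_adj _ _ _ _ _ _).2 ⟨j, hab, hj⟩)
    have htwo : ∀ a b c : VV m A ε, (GC A χ).edist a b = 1 → (GC A χ).edist b c = 1 →
        (GC A χ).edist a c ≤ 2 := by
      intro a b c h3 h4
      refine (SimpleGraph.edist_triangle (v := b)).trans ?_
      rw [h3, h4]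
      norm_num
    by_cases h : ∃ j, χ j = true ∧ (∀ e, j ≠ .inr (.inl (e, true))) ∧
        ∃ a b : VV m A ε, (GC A χ).Reachable u a ∧ orb a b = some j
    · right
      obtain ⟨j, hχ, hjb, a, b, ha, hab⟩ := h
      have hhop : ∀ (s : Fin m) (x y : A) (c : VV m A ε),
          orb (.inl (s, x)) c = some j → orb c (.inl (s, y)) = some j →
          (GC A χ).edist (.inl (s, x)) (.inl (s, y)) ≤ 2 := fun s x y c h3 h4 =>
        htwo _ c _ (hadj _ hχ _ _ h3) (hadj _ hχ _ _ h4)
      rcases a with ⟨s, x⟩ | i <;> rcases b with ⟨t, y⟩ | i'
      · by_cases hst : s = t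
        · subst hst
          by_cases hxy : x = y
          · subst hxy
            rw [orb_self] at hab
            cases hab
          · left
            rw [orb_same hxy] at hab
            simp only [Option.some.injEq] at hab
            subst hab
            refine ⟨_, ha, ?_⟩
            rintro (⟨t, z⟩ | i) hv
            · have hst : t = s := by simpa using hv
              subst hst
              by_cases hxz : x = z
              · subst hxz
                simp [SimpleGraph.edist_self]
              · exact (hadj _ hχ _ _ (orb_same hxz)).le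
            · cases hv
        · right
          have hadj2 : (GC A χ).Adj (.inl (s, x)) (.inl (t, y)) :=
            (GR_adj _ _ _ _ _ _).2 ⟨j, hab, hχ⟩
          rw [orb_diff hst] at hab
          simp only [Option.some.injEq] at hab
          subst hab
          have hxy : x ≠ y := by
            rintro rfl
            exact hjb _ (by rw [decide_eq_true rfl])
          refine ⟨_, _, ha, hadj2, by simpa using hst, ?_, ?_⟩
          · rintro (⟨t', z⟩ | i) hv
            · have hst' : t' = s := by simpa using hv
              subst hst'
              obtain ⟨w, hwx, hwz⟩ := hthird x z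
              refine hhop _ _ _ (.inl (t, w)) ?_ ?_
              · rw [orb_diff hst]
                simp [hxy, Ne.symm hwx]
              · rw [orb_symm, orb_diff hst]
                simp [hxy, Ne.symm hwz]
            · cases hv
          · rintro (⟨t', z⟩ | i) hv
            · have hst' : t' = t := by simpa using hv
              subst hst'
              obtain ⟨w, hwy, hwz⟩ := hthird y z
              refine hhop _ _ _ (.inl (s, w)) ?_ ?_
              · rw [orb_symm, orb_diff hst]
                simp [hxy, hwy]
              · rw [orb_diff hst]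
                simp [hxy, hwz]
            · cases hv
      · right
        have hadj2 : (GC A χ).Adj (.inl (s, x)) (.inr i') :=
          (GR_adj _ _ _ _ _ _).2 ⟨j, hab, hχ⟩
        rw [orb_lr] at hab
        simp only [Option.some.injEq] at hab
        subst hab
        refine ⟨_, _, ha, hadj2, by simp, ?_, ?_⟩
        · rintro (⟨t', z⟩ | i) hv
          · have hst' : t' = s := by simpa using hv
            subst hst'
            exact hhop _ _ _ (.inr i') rfl rfl
          · cases hv
        · rintro (⟨t', z⟩ | i) hv
          · cases hv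
          · have hst' : i = i' := by simpa using hv
            subst hst'
            simp [SimpleGraph.edist_self]
      · right
        have hadj2 : (GC A χ).Adj (.inr i) (.inl (t, y)) :=
          (GR_adj _ _ _ _ _ _).2 ⟨j, hab, hχ⟩
        rw [orb_rl] at hab
        simp only [Option.some.injEq] at hab
        subst hab
        refine ⟨_, _, ha, hadj2, by simp, ?_, ?_⟩
        · rintro (⟨t', z⟩ | i') hv
          · cases hv
          · have hst' : i' = i := by simpa using hv
            subst hst'
            simp [SimpleGraph.edist_self]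
        · rintro (⟨t', z⟩ | i') hv
          · have hst' : t' = t := by simpa using hv
            subst hst'
            exact hhop _ _ _ (.inr i) rfl rfl
          · cases hv
      · cases hab
    · left
      have hF : ∀ a b : VV m A ε, (GC A χ).Reachable u a → (GC A χ).Adj a b →
          FS a = FS b := by
        intro a b ha hab
        obtain ⟨j, hj, hχ⟩ := (GR_adj _ _ _ _ _ _).1 hab
        have hjb : ∃ e, j = .inr (.inl (e, true)) := by
          by_contra hcon
          push Not at hcon
          exact h ⟨j, hχ, hcon, a, b, ha, hj⟩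
        obtain ⟨e, rfl⟩ := hjb
        rcases a with ⟨s, x⟩ | i <;> rcases b with ⟨t, y⟩ | i'
        · by_cases hst : s = t
          · subst hst
            by_cases hxy : x = y
            · subst hxy
              rfl
            · rw [orb_same hxy] at hj
              simp at hj
          · rw [orb_diff hst] at hj
            simp only [Option.some.injEq, Sum.inr.injEq, Sum.inl.injEq, Prod.mk.injEq,
              decide_eq_true_eq] at hj
            rw [hj.2]
            rfl
        · rw [orb_lr] at hj
          simp at hj
        · rw [orb_rl] at hj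
          simp at hj
        · cases hj
      intro v w hv hw hvw
      have e1 := reach_const hF hv
      have e2 := reach_const hF hw
      rcases v with ⟨s, x⟩ | i <;> rcases w with ⟨t, y⟩ | j
      · have hst : s = t := by simpa using hvw
        subst hst
        have hxy : x = y := by simpa [FS] using e1.symm.trans e2
        rw [hxy]
      · cases hvw
      · cases hvw
      · have hij : i = j := by simpa using hvw
        rw [hij]

end Pool.Agent.H512.BD
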