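import Pool.Agent.H512.BD.Model

set_option autoImplicit false
set_option linter.unusedSectionVars false

/-!
MP_257582_lc. Recursive configurations: every copy is a root, with or without the inner pairs, or it is
attached to an earlier copy.
-/

namespace Pool.Agent.H512.BD

open Finset
open Pool.Agent.TH669.KP (GR GR_adj sgn bit bit_pos bit_neg bit_congr toggle_zero sum_prod_fun)

/-- the choices of a copy -/
abbrev Ch {m : ℕ} (s : Fin m) : Type := Option (Option {t : Fin m // t < s})

/-- the weight of a recursive configuration -/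
def wt {m : ℕ} (g : ∀ s : Fin m, Ch s) : ℤ := ∏ s, (if g s = none then 1 else -1)

variable {m : ℕ} {A : Type} {ε : ℕ}

/-- the pairs of a recursive configuration -/
def lk (A : Type) (ε : ℕ) (g : ∀ s : Fin m, Ch s) (u v : VV m A ε) : Prop :=
  ∃ (s : Fin m) (x : A), u = .inl (s, x) ∧
    ((g s = some none ∧ ∃ y, v = .inl (s, y)) ∨
      ∃ t : {t : Fin m // t < s}, g s = some (some t) ∧ v = .inl (t.1, x))

/-- the partition of a recursive configuration -/
def Pg (A : Type) (ε : ℕ) (g : ∀ s : Fin m, Ch s) : Setoid (VV m A ε) :=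
  Relation.EqvGen.setoid (lk A ε g)

/-- the copy `s` is contained in a class -/
def Wh (ρ : Setoid (VV m A ε)) (s : Fin m) : Prop := ∀ x y, ρ (.inl (s, x)) (.inl (s, y))

/-- corresponding elements of the copies `s` and `t` are related -/
def Ln (ρ : Setoid (VV m A ε)) (s t : Fin m) : Prop := ∀ x, ρ (.inl (s, x)) (.inl (t, x))

/-- the condition for one copy -/
def cond (ρ : Setoid (VV m A ε)) (s : Fin m) : Ch s → Prop
  | none => True
  | some none => Wh ρ s
  | some (some t) => Ln ρ s t.1

theorem Pg_le {g : ∀ s : Fin m, Ch s} {ρ : Setoid (VV m A ε)} :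
    Pg A ε g ≤ ρ ↔ ∀ s, cond ρ s (g s) := by
  constructor
  · intro h s
    have h1 : ∀ u v, lk A ε g u v → ρ u v := fun u v huv => h (Relation.EqvGen.rel _ _ huv)
    rcases hg : g s with _ | _ | t
    · trivial
    · intro x y
      exact h1 _ _ ⟨s, x, rfl, Or.inl ⟨hg, y, rfl⟩⟩
    · intro x
      exact h1 _ _ ⟨s, x, rfl, Or.inr ⟨t, hg, rfl⟩⟩
  · intro h
    refine Setoid.eqvGen_le ?_
    rintro u v ⟨s, x, rfl, ⟨hg, y, rfl⟩ | ⟨t, hg, rfl⟩⟩
    · have h1 := h s
      rw [hg] at h1
      exact h1 x y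
    · have h1 := h s
      rw [hg] at h1
      exact h1 x

theorem bit_forall {ι : Type} [Fintype ι] (p : ι → Prop) : bit (∀ i, p i) = ∏ i, bit (p i) := by
  classical
  by_cases h : ∀ i, p i
  · rw [bit_pos h]
    exact (Finset.prod_eq_one fun i _ => bit_pos (h i)).symm
  · rw [bit_neg h]
    push Not at h
    obtain ⟨i, hi⟩ := h
    exact (Finset.prod_eq_zero (Finset.mem_univ i) (bit_neg hi)).symm

theorem zetaR_prod (ρ : Setoid (VV m A ε)) :
    ∑ g : ∀ s : Fin m, Ch s, wt g * bit (Pg A ε g ≤ ρ) =
      ∏ s : Fin m, (1 - bit (Wh ρ s) - ∑ t : {t : Fin m // t < s}, bit (Ln ρ s t.1)) := by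
  classical
  have h1 : ∀ g : ∀ s : Fin m, Ch s, wt g * bit (Pg A ε g ≤ ρ) =
      ∏ s, ((if g s = none then (1 : ℤ) else -1) * bit (cond ρ s (g s))) := by
    intro g
    rw [bit_congr Pg_le, bit_forall, wt, Finset.prod_mul_distrib]
  rw [Finset.sum_congr rfl fun g _ => h1 g,
    sum_prod_fun (fun (s : Fin m) (c : Ch s) => (if c = none then (1 : ℤ) else -1) *
      bit (cond ρ s c))]
  refine Finset.prod_congr rfl fun s _ => ?_
  rw [Fintype.sum_option, Fintype.sum_option, if_pos rfl, if_neg (by simp)]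
  have h2 : ∀ t : {t : Fin m // t < s}, (if (some (some t) : Ch s) = none then (1 : ℤ) else -1) *
      bit (cond ρ s (some (some t))) = - bit (Ln ρ s t.1) := by
    intro t
    rw [if_neg (by simp)]
    show -1 * bit (Ln ρ s t.1) = _
    ring
  rw [Finset.sum_congr rfl fun t _ => h2 t, Finset.sum_neg_distrib]
  have h3 : bit (cond ρ s none) = 1 := bit_pos trivial
  rw [h3]
  show 1 * 1 + (-1 * bit (Wh ρ s) + _) = _
  ring

theorem zetaR [DecidableEq A] [Fintype A] (hA : 3 ≤ Fintype.card A) (ρ : Setoid (VV m A ε)) :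
    ∑ g : ∀ s : Fin m, Ch s, wt g * bit (Pg A ε g ≤ ρ) =
      bit (∀ j : JJ m ε, ∃ u v, orb u v = some j ∧ ¬ ρ u v) := by
  classical
  rw [zetaR_prod]
  have hthird : ∀ x y : A, ∃ z, z ≠ x ∧ z ≠ y := by
    intro x y
    by_contra hcon
    push Not at hcon
    have h1 : (univ : Finset A) ⊆ {x, y} := by
      intro z _
      rw [Finset.mem_insert, Finset.mem_singleton]
      by_cases h : z = x
      · exact Or.inl h
      · exact Or.inr (hcon z h)
    have h2 := (Finset.card_le_card h1).trans Finset.card_le_two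
    rw [Finset.card_univ] at h2
    omega
  by_cases h : ∀ j : JJ m ε, ∃ u v, orb u v = some j ∧ ¬ ρ u v
  · rw [bit_pos h]
    refine Finset.prod_eq_one fun s _ => ?_
    have h1 : ¬ Wh ρ s := by
      intro hW
      obtain ⟨u, v, huv, hρ⟩ := h (.inl s)
      rcases u with ⟨s₁, x⟩ | i <;> rcases v with ⟨s₂, y⟩ | i₂
      · by_cases hst : s₁ = s₂
        · subst hst
          by_cases hxy : x = y
          · subst hxy
            exact hρ (ρ.refl _)
          · rw [orb_same hxy] at huv
            simp only [Option.some.injEq, Sum.inl.injEq] at huv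
            subst huv
            exact hρ (hW x y)
        · rw [orb_diff hst] at huv
          simp at huv
      · rw [orb_lr] at huv
        simp at huv
      · rw [orb_rl] at huv
        simp at huv
      · cases huv
    have h2 : ∀ t : {t : Fin m // t < s}, ¬ Ln ρ s t.1 := by
      intro t hL
      obtain ⟨u, v, huv, hρ⟩ := h (.inr (.inl (pr s t.1 (ne_of_gt t.2), true)))
      rcases u with ⟨s₁, x⟩ | i <;> rcases v with ⟨s₂, y⟩ | i₂
      · by_cases hst : s₁ = s₂
        · subst hst
          by_cases hxy : x = y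
          · subst hxy
            exact hρ (ρ.refl _)
          · rw [orb_same hxy] at huv
            simp at huv
        · rw [orb_diff hst] at huv
          simp only [Option.some.injEq, Sum.inr.injEq, Sum.inl.injEq, Prod.mk.injEq,
            decide_eq_true_eq, pr_eq_iff] at huv
          obtain ⟨h3, rfl⟩ := huv
          rcases h3 with ⟨rfl, rfl⟩ | ⟨rfl, rfl⟩
          · exact hρ (hL x)
          · exact hρ (ρ.symm (hL x))
      · rw [orb_lr] at huv
        simp at huv
      · rw [orb_rl] at huv
        simp at huv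
      · cases huv
    rw [bit_neg h1, Finset.sum_eq_zero fun t _ => bit_neg (h2 t)]
    ring
  · rw [bit_neg h]
    push Not at h
    obtain ⟨j, hj⟩ := h
    have h1 : ∃ s, Wh ρ s ∨ ∃ t, t < s ∧ Ln ρ s t := by
      rcases j with s | ⟨e, b⟩ | ⟨s, i⟩
      · refine ⟨s, Or.inl fun x y => ?_⟩
        by_cases hxy : x = y
        · subst hxy
          exact ρ.refl _
        · exact hj _ _ (orb_same hxy)
      · obtain ⟨s, t, hst, rfl⟩ := pr_exists e
        cases b
        · refine ⟨s, Or.inl fun x y => ?_⟩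
          obtain ⟨z, hzx, hzy⟩ := hthird x y
          have e1 := hj (.inl (s, x)) (.inl (t, z)) (by
            rw [orb_diff hst, decide_eq_false (Ne.symm hzx)])
          have e2 := hj (.inl (s, y)) (.inl (t, z)) (by
            rw [orb_diff hst, decide_eq_false (Ne.symm hzy)])
          exact ρ.trans e1 (ρ.symm e2)
        · have e1 : Ln ρ s t := fun x => hj _ _ (by rw [orb_diff hst, decide_eq_true rfl])
          rcases lt_or_gt_of_ne hst with h2 | h2
          · exact ⟨t, Or.inr ⟨s, h2, fun x => ρ.symm (e1 x)⟩⟩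
          · exact ⟨s, Or.inr ⟨t, h2, e1⟩⟩
      · refine ⟨s, Or.inl fun x y => ?_⟩
        exact ρ.trans (hj _ _ (orb_lr s x i)) (ρ.symm (hj _ _ (orb_lr s y i)))
    obtain ⟨s, hs, hmin⟩ := (wellFounded_lt : WellFounded ((· < ·) : Fin m → Fin m → Prop)).has_min
      {s | Wh ρ s ∨ ∃ t, t < s ∧ Ln ρ s t} h1
    refine Finset.prod_eq_zero (Finset.mem_univ s) ?_
    by_cases hW : Wh ρ s
    · rw [bit_pos hW, Finset.sum_eq_zero]
      · ring
      · intro t _
        refine bit_neg fun hL => hmin t.1 (Or.inl fun x y => ?_) t.2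
        exact ρ.trans (ρ.symm (hL x)) (ρ.trans (hW x y) (hL y))
    · rcases hs with hs | ⟨t, hts, hL⟩
      · exact absurd hs hW
      · rw [bit_neg hW, Finset.sum_eq_single (⟨t, hts⟩ : {t : Fin m // t < s}), bit_pos hL]
        · ring
        · rintro ⟨t', hts'⟩ _ hne
          refine bit_neg fun hL' => ?_
          have hne' : t' ≠ t := fun h3 => hne (Subtype.ext h3)
          have hLL : Ln ρ t' t := fun x => ρ.trans (ρ.symm (hL' x)) (hL x)
          rcases lt_or_gt_of_ne hne' with h3 | h3
          · exact hmin t (Or.inr ⟨t', h3, fun x => ρ.symm (hLL x)⟩) hts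
          · exact hmin t' (Or.inr ⟨t, h3, hLL⟩) hts'
        · intro h3
          exact absurd (Finset.mem_univ _) h3

/-- signed sums over configurations are weighted sums over recursive configurations -/
theorem rec_sum [DecidableEq A] [Fintype A] (hA : 3 ≤ Fintype.card A)
    (Φ : Setoid (VV m A ε) → ℤ) :
    ∑ χ : JJ m ε → Bool, sgn χ * Φ (GC A χ).reachableSetoid =
      ∑ g : ∀ s : Fin m, Ch s, wt g * Φ (Pg A ε g) := by
  refine mob _ _ _ _ (fun ρ => ?_) Φ
  rw [zetaR hA ρ]
  exact zetaL orb orb_symm orb_self ρ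

end Pool.Agent.H512.BD
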