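import Pool.Agent.H512.BD.Can
import Pool.Agent.H512.BD.Rec
import Pool.Graph.R_seed8.H119R2.Kp.PVE

set_option autoImplicit false
set_option linter.unusedSectionVars false

/-!
MP_257582_lc. Permutations of the copies; the partitions of recursive configurations.
-/

namespace Pool.Agent.H512.BD

open Finset
open Pool.Agent.H119R2.Kp (pve_map_adj)
open Pool.Agent.TH669.KP (GR GR_adj sgn bit bit_pos bit_neg bit_congr toggle_zero)

/-- the complete graphs on the classes of a partition -/
def clo {V : Type} (ρ : Setoid V) : SimpleGraph V where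
  Adj u v := u ≠ v ∧ ρ u v
  symm := ⟨fun _ _ h => ⟨h.1.symm, ρ.symm h.2⟩⟩
  loopless := ⟨fun _ h => h.1 rfl⟩

theorem clo_mono {V : Type} {ρ σ : Setoid V} (h : ρ ≤ σ) : clo ρ ≤ clo σ :=
  fun _ _ huv => ⟨huv.1, h huv.2⟩

theorem le_clo {V : Type} (G : SimpleGraph V) : G ≤ clo G.reachableSetoid :=
  fun _ _ huv => ⟨huv.ne, huv.reachable⟩

variable {m : ℕ} {A : Type} [DecidableEq A] {ε : ℕ}

/-- permutation of the copies -/
def sV (σ : Equiv.Perm (Fin m)) : Equiv.Perm (VV m A ε) :=
  Equiv.sumCongr (Equiv.prodCongr σ (Equiv.refl _)) (Equiv.refl _)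

/-- permutation of the pairs of copies -/
def sE (σ : Equiv.Perm (Fin m)) : Equiv.Perm (EE m) where
  toFun e := ⟨Sym2.map σ e.1, by rw [Sym2.isDiag_map σ.injective]; exact e.2⟩
  invFun e := ⟨Sym2.map σ.symm e.1, by rw [Sym2.isDiag_map σ.symm.injective]; exact e.2⟩
  left_inv e := by
    apply Subtype.ext
    simp [Sym2.map_map]
  right_inv e := by
    apply Subtype.ext
    simp [Sym2.map_map]

/-- permutation of the orbits -/
def sJ (σ : Equiv.Perm (Fin m)) : Equiv.Perm (JJ m ε) :=
  Equiv.sumCongr σ (Equiv.sumCongr (Equiv.prodCongr (sE σ) (Equiv.refl _))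
    (Equiv.prodCongr σ (Equiv.refl _)))

theorem sV_inl (σ : Equiv.Perm (Fin m)) (s : Fin m) (x : A) :
    sV (ε := ε) σ (.inl (s, x)) = .inl (σ s, x) := rfl

theorem sV_inr (σ : Equiv.Perm (Fin m)) (i : Fin ε) : sV (A := A) σ (.inr i) = .inr i := rfl

theorem orb_sV (σ : Equiv.Perm (Fin m)) (u v : VV m A ε) :
    orb (sV σ u) (sV σ v) = (orb u v).map (sJ σ) := by
  rcases u with ⟨s, x⟩ | i <;> rcases v with ⟨t, y⟩ | j
  · rw [sV_inl, sV_inl]
    by_cases h : s = t
    · subst h
      by_cases hxy : x = y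
      · subst hxy
        rw [orb_self, orb_self]
        rfl
      · rw [orb_same hxy, orb_same hxy]
        rfl
    · rw [orb_diff h, orb_diff fun h1 => h (σ.injective h1)]
      rfl
  · rfl
  · rfl
  · rfl

theorem GC_sJ (σ : Equiv.Perm (Fin m)) (χ : JJ m ε → Bool) (u v : VV m A ε) :
    (GC A χ).Adj (sV σ u) (sV σ v) ↔ (GC A (χ ∘ sJ σ)).Adj u v := by
  rw [GR_adj, GR_adj, orb_sV]
  constructor
  · rintro ⟨j, hj, hχ⟩
    rw [Option.map_eq_some_iff] at hj
    obtain ⟨i, hi, rfl⟩ := hj
    exact ⟨i, hi, hχ⟩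
  · rintro ⟨j, hj, hχ⟩
    exact ⟨sJ σ j, by rw [hj]; rfl, hχ⟩

theorem TC_sJ (σ : Equiv.Perm (Fin m)) (χ : JJ m ε → Bool) (s : Fin m) :
    s ∈ TC A (χ ∘ sJ σ) ↔ σ s ∈ TC A χ := by
  rw [mem_TT, mem_TT]
  let φ : GC A (χ ∘ sJ σ) ≃g GC A χ := ⟨sV σ, fun {a b} => GC_sJ σ χ a b⟩
  have h : ∀ u v, (GC A χ).Reachable (sV σ u) (sV σ v) ↔ (GC A (χ ∘ sJ σ)).Reachable u v :=
    fun u v => SimpleGraph.Iso.reachable_iff (φ := φ)
  have h2 : (∀ x y : A, (GC A (χ ∘ sJ σ)).Reachable (.inl (s, x)) (.inl (s, y))) ↔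
      ∀ x y : A, (GC A χ).Reachable (.inl (σ s, x)) (.inl (σ s, y)) :=
    forall_congr' fun x => forall_congr' fun y => by rw [← h, sV_inl, sV_inl]
  exact not_congr h2

theorem sgn_comp {J : Type} [Fintype J] (e : Equiv.Perm J) (χ : J → Bool) :
    sgn (χ ∘ e) = sgn χ := by
  unfold sgn
  exact Fintype.prod_equiv e _ _ fun j => rfl

theorem XX_sJ {Q : SimpleGraph (VV m A ε) → Prop}
    (hiso : ∀ (σ : Equiv.Perm (VV m A ε)) G, Q G → Q (G.map σ.toEmbedding)) (z z' : Fin m) :
    XX Q {z} = XX Q {z'} := by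
  classical
  let σ : Equiv.Perm (Fin m) := Equiv.swap z z'
  have hσ : σ z = z' := Equiv.swap_apply_left z z'
  have hQ : ∀ χ : JJ m ε → Bool, Q (GC A (χ ∘ sJ σ)) ↔ Q (GC A χ) := by
    intro χ
    have h1 : (GC A (χ ∘ sJ σ)).map (sV σ).toEmbedding = GC A χ := by
      ext a b
      rw [pve_map_adj, ← GC_sJ, Equiv.apply_symm_apply, Equiv.apply_symm_apply]
    have h2 : (GC A χ).map (sV σ).symm.toEmbedding = GC A (χ ∘ sJ σ) := by
      ext a b
      rw [pve_map_adj, ← GC_sJ]
      rfl
    constructor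
    · intro h
      rw [← h1]
      exact hiso _ _ h
    · intro h
      rw [← h2]
      exact hiso _ _ h
  have hT : ∀ χ : JJ m ε → Bool, TC A (χ ∘ sJ σ) = {z} ↔ TC A χ = {z'} := by
    intro χ
    constructor
    · intro h
      ext s
      have := TC_sJ (A := A) σ χ (σ.symm s)
      rw [Equiv.apply_symm_apply, h] at this
      rw [← this, Finset.mem_singleton, Finset.mem_singleton, Equiv.symm_apply_eq, hσ]
    · intro h
      ext s
      rw [TC_sJ, h, Finset.mem_singleton, Finset.mem_singleton, ← hσ, σ.injective.eq_iff]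
  unfold XX
  rw [← Equiv.sum_comp ((sJ σ).symm.arrowCongr (Equiv.refl Bool))]
  refine Finset.sum_congr rfl fun χ _ => ?_
  have h1 : ((sJ σ).symm.arrowCongr (Equiv.refl Bool)) χ = χ ∘ sJ σ := by
    funext j
    rfl
  rw [h1, sgn_comp, bit_congr (hQ χ), bit_congr (hT χ)]

/-- the copy `s` is in the tree of a root without inner pairs -/
inductive Lay (g : ∀ s : Fin m, Ch s) : Fin m → Prop
  | root {s : Fin m} (h : g s = none) : Lay g s
  | step {s : Fin m} {t : {t : Fin m // t < s}} (h : g s = some (some t)) (ht : Lay g t.1) :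
      Lay g s

theorem mem_TT_Pg [Nontrivial A] (g : ∀ s : Fin m, Ch s) (s : Fin m) :
    s ∈ TT (Pg A ε g) ↔ Lay g s := by
  classical
  rw [mem_TT]
  have hc := (Pg_le (A := A) (ε := ε) (g := g)).1 le_rfl
  constructor
  · intro h
    by_contra hL
    apply h
    clear h
    induction s using WellFoundedLT.induction with
    | ind s ih =>
      rcases hg : g s with _ | _ | t
      · exact absurd (Lay.root hg) hL
      · have h1 := hc s
        rw [hg] at h1
        exact h1
      · have h1 : Ln (Pg A ε g) s t.1 := by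
          have h1 := hc s
          rw [hg] at h1
          exact h1
        have h2 := ih t.1 t.2 fun h3 => hL (Lay.step hg h3)
        intro x y
        exact (Pg A ε g).trans (h1 x) ((Pg A ε g).trans (h2 x y) ((Pg A ε g).symm (h1 y)))
  · intro hL hW
    let F : VV m A ε → Option A := fun u => match u with
      | .inl (t, x) => if Lay g t then some x else none
      | .inr _ => none
    have h1 : Pg A ε g ≤ Setoid.ker F := by
      rw [Pg_le]
      intro t
      rcases hg : g t with _ | _ | t'
      · trivial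
      · intro x y
        have h2 : ¬ Lay g t := by
          intro h
          cases h with
          | root h3 =>
            rw [hg] at h3
            cases h3
          | step h3 h4 =>
            rw [hg] at h3
            cases h3
        rw [Setoid.ker_def]
        simp [F, h2]
      · intro x
        have h2 : Lay g t ↔ Lay g t'.1 := by
          constructor
          · intro h
            cases h with
            | root h3 =>
              rw [hg] at h3
              cases h3
            | step h3 h4 =>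
              rw [hg] at h3
              cases h3
              exact h4
          · exact fun h => Lay.step hg h
        rw [Setoid.ker_def]
        simp [F, h2]
    obtain ⟨x, y, hxy⟩ := exists_pair_ne A
    have h2 : F (.inl (s, x)) = F (.inl (s, y)) := h1 (hW x y)
    simp [F, hL] at h2
    exact hxy h2

end Pool.Agent.H512.BD
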