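import Pool.Agent.H512.BD.Pos

set_option autoImplicit false
set_option linter.unusedSectionVars false

/-!
MP_257582_lc. The criterion for properties of graphs on `Fin n`.
-/

namespace Pool.Agent.H512.BD

open Finset
open Pool.Agent.H119R2.Kp (GP PV pve_map_adj)
open Pool.Agent.H119R2.Kp.RelAux (PV_iff)
open Pool.Agent.TH669.KP (GR GR_adj sgn bit bit_pos bit_neg bit_congr toggle_zero)

section transport

variable {V W : Type} (e : V ≃ W) (G : SimpleGraph V)

theorem map_reach (u v : V) :
    (G.map e.toEmbedding).Reachable (e u) (e v) ↔ G.Reachable u v := by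
  let φ : G ≃g G.map e.toEmbedding := ⟨e, fun {a b} => by
    rw [pve_map_adj, Equiv.symm_apply_apply, Equiv.symm_apply_apply]⟩
  exact SimpleGraph.Iso.reachable_iff (φ := φ)

theorem hom_edist {V W : Type} {G : SimpleGraph V} {H : SimpleGraph W} (f : G →g H) (u v : V) :
    H.edist (f u) (f v) ≤ G.edist u v := by
  by_cases h : G.edist u v = ⊤
  · rw [h]
    exact le_top
  · obtain ⟨p, hp⟩ := SimpleGraph.exists_walk_of_edist_ne_top h
    rw [← hp]
    have := SimpleGraph.Walk.edist_le (p.map f)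
    rwa [SimpleGraph.Walk.length_map] at this

theorem map_edist (u v : V) :
    (G.map e.toEmbedding).edist (e u) (e v) = G.edist u v := by
  let φ : G ≃g G.map e.toEmbedding := ⟨e, fun {a b} => by
    rw [pve_map_adj, Equiv.symm_apply_apply, Equiv.symm_apply_apply]⟩
  refine le_antisymm (hom_edist φ.toHom u v) ?_
  have h1 := hom_edist φ.symm.toHom (e u) (e v)
  have h2 : ∀ x, φ.symm.toHom (e x) = x := fun x => e.symm_apply_apply x
  rwa [h2, h2] at h1

theorem map_sz (u : V) : sz (G.map e.toEmbedding) (e u) = sz G u := by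
  unfold sz
  symm
  exact Nat.card_congr (e.subtypeEquiv fun w => (map_reach e G u w).symm)

theorem map_clo : (clo G.reachableSetoid).map e.toEmbedding =
    clo (G.map e.toEmbedding).reachableSetoid := by
  ext u v
  obtain ⟨u, rfl⟩ := e.surjective u
  obtain ⟨v, rfl⟩ := e.surjective v
  rw [pve_map_adj, Equiv.symm_apply_apply, Equiv.symm_apply_apply]
  have h1 : (clo G.reachableSetoid).Adj u v ↔ u ≠ v ∧ G.Reachable u v := Iff.rfl
  have h2 : (clo (G.map e.toEmbedding).reachableSetoid).Adj (e u) (e v) ↔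
      e u ≠ e v ∧ (G.map e.toEmbedding).Reachable (e u) (e v) := Iff.rfl
  rw [h1, h2, map_reach, e.injective.ne_iff]

theorem map_big (m : ℕ) : (big m G).map e.toEmbedding = big m (G.map e.toEmbedding) := by
  ext u v
  obtain ⟨u, rfl⟩ := e.surjective u
  obtain ⟨v, rfl⟩ := e.surjective v
  rw [pve_map_adj, Equiv.symm_apply_apply, Equiv.symm_apply_apply]
  have h1 : (big m G).Adj u v ↔ G.Adj u v ∧ m < sz G u ∧ m < sz G v := Iff.rfl
  have h2 : (big m (G.map e.toEmbedding)).Adj (e u) (e v) ↔
      (G.map e.toEmbedding).Adj (e u) (e v) ∧ m < sz (G.map e.toEmbedding) (e u) ∧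
      m < sz (G.map e.toEmbedding) (e v) := Iff.rfl
  rw [h1, h2, map_sz, map_sz, pve_map_adj, Equiv.symm_apply_apply, Equiv.symm_apply_apply]

theorem map_many {q m : ℕ} (h : ManySmall q m G) : ManySmall q m (G.map e.toEmbedding) := by
  obtain ⟨S, h1, h2, h3⟩ := h
  refine ⟨S.map e.toEmbedding, by rwa [Finset.card_map], ?_, ?_⟩
  · intro w hw
    obtain ⟨u, hu, rfl⟩ := Finset.mem_map.1 hw
    exact (map_sz e G u).trans_le (h2 u hu)
  · intro w hw w' hw' huv
    obtain ⟨u, hu, rfl⟩ := Finset.mem_map.1 hw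
    obtain ⟨v, hv, rfl⟩ := Finset.mem_map.1 hw'
    exact congrArg e (h3 u hu v hv ((map_reach e G u v).1 huv))

end transport

theorem map_rad {V W : Type} (e : V ≃ W) {G : SimpleGraph V} {R : ℕ} (h : RadLE R G) :
    RadLE R (G.map e.toEmbedding) := by
  intro u
  obtain ⟨u, rfl⟩ := e.surjective u
  obtain ⟨w, hw, h1⟩ := h u
  refine ⟨e w, (map_reach e G u w).2 hw, fun v hv => ?_⟩
  obtain ⟨v, rfl⟩ := e.surjective v
  rw [map_edist]
  exact h1 v ((map_reach e G w v).1 hv)

/-- the complete graph on the first `l` vertices -/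
def first (n l : ℕ) : SimpleGraph (Fin n) where
  Adj u v := u ≠ v ∧ u.1 < l ∧ v.1 < l
  symm := ⟨fun _ _ h => ⟨h.1.symm, h.2.2, h.2.1⟩⟩
  loopless := ⟨fun _ h => h.1 rfl⟩

/-- complete graphs on `l` intervals of length `q`, the other vertices are isolated -/
def blocks (n q l : ℕ) : SimpleGraph (Fin n) where
  Adj u v := u ≠ v ∧ u.1 / q = v.1 / q ∧ u.1 < l * q ∧ v.1 < l * q
  symm := ⟨fun _ _ h => ⟨h.1.symm, h.2.1.symm, h.2.2.2, h.2.2.1⟩⟩
  loopless := ⟨fun _ h => h.1 rfl⟩

theorem criterion {p a q M ε n d : ℕ} [Fact p.Prime] (hq : q = p ^ a) (hq3 : 3 ≤ q)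
    (hε : ε ≤ 1) (hn : n = (M + 1) * q + ε) {P : SimpleGraph (Fin n) → Prop}
    (hP : GP n d P) (hd : d < n.choose 2)
    (h1 : ∀ G : SimpleGraph (Fin n), (∀ u v, G.Reachable u v →
      G.edist u v + 1 ≤ ((2 * (M + 1) + ε : ℕ) : ℕ∞)) → RadLE (max (M + 1) 3) G →
      P (clo G.reachableSetoid) → P G)
    (h2 : ∀ G : SimpleGraph (Fin n), (∀ u v, G.Reachable u v →
      G.edist u v + 1 ≤ ((2 * (M + 1) + ε : ℕ) : ℕ∞)) → RadLE (max (M + 1) 3) G → P G →
      ManySmall q (M + 1) G → P (big (M + 1) G))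
    (h3 : P (first n ((M + 1) * q))) (h3' : ¬ P (blocks n q M)) : False := by
  classical
  obtain ⟨B⟩ := Pool.Agent.W99.Tw.exists_blk p a
  let A : Type := B.A
  let _ : AddCommGroup A := B.grp
  let _ : Fintype A := B.fin
  let _ : DecidableEq A := B.dec
  have hAc : Fintype.card A = q := B.card.trans hq.symm
  have hA3 : 3 ≤ Fintype.card A := by omega
  have hnt : Nontrivial A := Fintype.one_lt_card_iff_nontrivial.1 (by omega)
  let eA : A ≃ Fin q := Fintype.equivFinOfCardEq hAc
  let e0 : VV (M + 1) A ε ≃ Fin ((M + 1) * q + ε) :=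
    (Equiv.sumCongr ((Equiv.prodCongr (Equiv.refl _) eA).trans finProdFinEquiv)
      (Equiv.refl _)).trans finSumFinEquiv
  let e : VV (M + 1) A ε ≃ Fin n := e0.trans (finCongr hn.symm)
  have hel : ∀ (s : Fin (M + 1)) (x : A), (e (.inl (s, x))).1 = (eA x).1 + q * s.1 := by
    intro s x
    simp [e, e0, finProdFinEquiv]
  have her : ∀ i : Fin ε, (e (.inr i)).1 = (M + 1) * q + i.1 := by
    intro i
    simp [e, e0]
  have hdiv : ∀ (s : Fin (M + 1)) (x : A), (e (.inl (s, x))).1 / q = s.1 := by
    intro s x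
    rw [hel, Nat.add_mul_div_left _ _ (by omega), Nat.div_eq_of_lt (eA x).2, zero_add]
  have hlt : ∀ (s : Fin (M + 1)) (x : A) (l : ℕ), (e (.inl (s, x))).1 < l * q ↔ s.1 < l := by
    intro s x l
    rw [← Nat.div_lt_iff_lt_mul (by omega), hdiv]
  have hQiff : ∀ G : SimpleGraph (VV (M + 1) A ε), PV P _ G ↔ P (G.map e.toEmbedding) :=
    fun G => PV_iff hP e G
  have hV : Fintype.card (VV (M + 1) A ε) = n := by
    rw [Fintype.card_congr e, Fintype.card_fin]
  have hrel := relationC (m := M + 1) (ε := ε) (A := A) hε (p := p) B.tors B.c B.trans hP hV hd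
  refine main_V (M := M) (A := A) (ε := ε) hA3 B.c B.trans
    (Q := fun G => P (G.map e.toEmbedding)) ?_ ?_ hε ?_ ?_ ?_ ?_ ?_
  · intro G H hGH hG
    exact hP.mono _ _ (fun u v huv => by
      rw [pve_map_adj] at huv ⊢
      exact hGH huv) hG
  · intro σ G hG
    have h4 := hP.iso (e.symm.trans (σ.trans e)) _ hG
    have h5 : (G.map e.toEmbedding).map (e.symm.trans (σ.trans e)).toEmbedding =
        (G.map σ.toEmbedding).map e.toEmbedding := by
      ext u v
      rw [pve_map_adj, pve_map_adj, pve_map_adj, pve_map_adj]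
      simp
    rwa [h5] at h4
  · intro G hG hR hc
    refine h1 _ ?_ (map_rad e hR) ?_
    · intro u v huv
      obtain ⟨u, rfl⟩ := e.surjective u
      obtain ⟨v, rfl⟩ := e.surjective v
      rw [map_edist]
      exact hG u v ((map_reach e G u v).1 huv)
    · rw [← map_clo]
      exact hc
  · intro G hG hR hPG hm
    show P _
    rw [map_big]
    refine h2 _ ?_ (map_rad e hR) hPG ?_
    · intro u v huv
      obtain ⟨u, rfl⟩ := e.surjective u
      obtain ⟨v, rfl⟩ := e.surjective v
      rw [map_edist]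
      exact hG u v ((map_reach e G u v).1 huv)
    · rw [hAc] at hm
      exact map_many e G hm
  · refine hP.mono _ _ ?_ h3
    intro u v huv
    obtain ⟨u, rfl⟩ := e.surjective u
    obtain ⟨v, rfl⟩ := e.surjective v
    rw [pve_map_adj, Equiv.symm_apply_apply, Equiv.symm_apply_apply]
    obtain ⟨h4, h5, h6⟩ := huv
    refine ⟨fun h => h4 (by rw [h]), ?_⟩
    rw [Setoid.ker_def]
    rcases u with ⟨s, x⟩ | i <;> rcases v with ⟨t, y⟩ | j
    · simp [kp]
    · rw [her] at h6
      omega
    · rw [her] at h5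
      omega
    · rw [her] at h5
      omega
  · intro h4
    refine h3' (hP.mono _ _ ?_ h4)
    intro u v huv
    obtain ⟨u, rfl⟩ := e.surjective u
    obtain ⟨v, rfl⟩ := e.surjective v
    rw [pve_map_adj, Equiv.symm_apply_apply, Equiv.symm_apply_apply] at huv
    obtain ⟨h5, h6⟩ := huv
    rw [Setoid.ker_def] at h6
    refine ⟨fun h => h5 (e.injective h), ?_⟩
    rcases u with ⟨s, x⟩ | i <;> rcases v with ⟨t, y⟩ | j
    · by_cases hs : s = Fin.last M
      · by_cases ht : t = Fin.last M
        · exfalso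
          subst hs ht
          simp only [km, if_true, Sum.inr.injEq, Sum.inl.injEq] at h6
          exact h5 (by rw [h6])
        · simp [km, hs, ht] at h6
      · by_cases ht : t = Fin.last M
        · simp [km, hs, ht] at h6
        · simp only [km, if_neg hs, if_neg ht, Sum.inl.injEq] at h6
          have hs1 : s.1 < M := by
            have := s.2
            have : s.1 ≠ M := fun h => hs (Fin.ext (by simpa using h))
            omega
          have ht1 : t.1 < M := by
            have := t.2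
            have : t.1 ≠ M := fun h => ht (Fin.ext (by simpa using h))
            omega
          rw [hdiv, hdiv, hlt, hlt]
          exact ⟨by omega, hs1, ht1⟩
    · exfalso
      by_cases hs : s = Fin.last M <;> simp [km, hs] at h6
    · exfalso
      by_cases ht : t = Fin.last M <;> simp [km, ht] at h6
    · exfalso
      simp only [km, Sum.inr.injEq] at h6
      exact h5 (by rw [h6])
  · rw [← hrel]
    refine Finset.sum_congr rfl fun χ _ => ?_
    rw [bit_congr (hQiff _)]

end Pool.Agent.H512.BD
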